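import Pool.Agent.R260.SC.Defs

/-! Piece CO of project SC: comparison of coefficients. -/

set_option autoImplicit false

open MeasureTheory Matrix

namespace Pool.Agent.R260.SC

namespace CO641

open Finset

theorem geo {N : ℕ} {ζ : ℂ} (hζ : IsPrimitiveRoot ζ N) (hN : N ≠ 0) (j l : ℕ) (hj : j < N)
    (hl : l < N) :
    ∑ s ∈ range N, (ζ ^ j) ^ s * (starRingEnd ℂ) ((ζ ^ l) ^ s) = if j = l then (N : ℂ) else 0 := by
  have hz : ‖ζ‖ = 1 := hζ.norm'_eq_one hN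
  have h0 : ζ ≠ 0 := by
    intro h
    rw [h, norm_zero] at hz
    exact zero_ne_one hz
  have e : ∀ s, (ζ ^ j) ^ s * (starRingEnd ℂ) ((ζ ^ l) ^ s) = (ζ ^ j * (ζ ^ l)⁻¹) ^ s := by
    intro s
    rw [map_pow, map_pow, ← Complex.inv_eq_conj hz, mul_pow, inv_pow, inv_pow]
  simp only [e]
  split_ifs with hjl
  · subst hjl
    rw [mul_inv_cancel₀ (pow_ne_zero _ h0)]
    simp
  · have h1 : ζ ^ j * (ζ ^ l)⁻¹ ≠ 1 := by
      intro h
      rw [← div_eq_mul_inv, div_eq_one_iff_eq (pow_ne_zero _ h0)] at h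
      exact hjl (hζ.pow_inj hj hl h)
    rw [geom_sum_eq h1]
    have h2 : (ζ ^ j * (ζ ^ l)⁻¹) ^ N = 1 := by
      rw [mul_pow, inv_pow, ← pow_mul, ← pow_mul, mul_comm j, mul_comm l, pow_mul, pow_mul,
        hζ.pow_eq_one, one_pow, one_pow, inv_one, mul_one]
    rw [h2, sub_self, zero_div]

theorem parseval (k : ℕ) {ζ : ℂ} (hζ : IsPrimitiveRoot ζ (k + 1)) (x : ℕ → ℂ) :
    ∑ s ∈ range (k + 1), ‖∑ j ∈ range (k + 1), x j * (ζ ^ j) ^ s‖ ^ 2 =
      ((k : ℝ) + 1) * ∑ j ∈ range (k + 1), ‖x j‖ ^ 2 := by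
  apply Complex.ofReal_injective
  push_cast
  have e1 : ∀ s, ((‖∑ j ∈ range (k + 1), x j * (ζ ^ j) ^ s‖ : ℂ)) ^ 2 =
      ∑ j ∈ range (k + 1), ∑ l ∈ range (k + 1),
        x j * (starRingEnd ℂ) (x l) * ((ζ ^ j) ^ s * (starRingEnd ℂ) ((ζ ^ l) ^ s)) := by
    intro s
    rw [← Complex.mul_conj', map_sum, Finset.sum_mul_sum]
    refine Finset.sum_congr rfl fun j _ => Finset.sum_congr rfl fun l _ => ?_
    rw [map_mul]
    ring
  simp only [e1]
  rw [Finset.sum_comm]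
  rw [Finset.mul_sum]
  refine Finset.sum_congr rfl fun j hj => ?_
  rw [Finset.sum_comm]
  have e2 : ∀ l ∈ range (k + 1), ∑ s ∈ range (k + 1),
      x j * (starRingEnd ℂ) (x l) * ((ζ ^ j) ^ s * (starRingEnd ℂ) ((ζ ^ l) ^ s)) =
      if j = l then ((k : ℂ) + 1) * (x j * (starRingEnd ℂ) (x j)) else 0 := by
    intro l hl
    rw [← Finset.mul_sum, geo hζ (Nat.succ_ne_zero k) j l (Finset.mem_range.1 hj)
      (Finset.mem_range.1 hl)]
    split_ifs with h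
    · subst h
      push_cast
      ring
    · rw [mul_zero]
  rw [Finset.sum_congr rfl e2, Finset.sum_ite_eq, if_pos hj, Complex.mul_conj']

theorem pt (k : ℕ) {ζ : ℂ} (hζ : IsPrimitiveRoot ζ (k + 1)) (F G : ℂ) (ρ : ℝ) :
    ∑ s ∈ range (k + 1), ‖F + ((ρ : ℂ) * ζ ^ s) * G‖ ^ (2 * k) =
      ((k : ℝ) + 1) * ∑ j ∈ range (k + 1), ((k.choose j : ℝ)) ^ 2 * ρ ^ (2 * j) *
        (‖F‖ ^ (2 * (k - j)) * ‖G‖ ^ (2 * j)) := by
  have h := parseval k hζ (fun j => (k.choose j : ℂ) * (ρ : ℂ) ^ j * G ^ j * F ^ (k - j))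
  have e1 : ∀ s, ‖F + ((ρ : ℂ) * ζ ^ s) * G‖ ^ (2 * k) = ‖∑ j ∈ range (k + 1),
      (k.choose j : ℂ) * (ρ : ℂ) ^ j * G ^ j * F ^ (k - j) * (ζ ^ j) ^ s‖ ^ 2 := by
    intro s
    rw [mul_comm 2 k, pow_mul, ← norm_pow, add_comm, add_pow]
    congr 2
    refine Finset.sum_congr rfl fun j _ => ?_
    rw [mul_pow, mul_pow, ← pow_mul, mul_comm s j, pow_mul]
    ring
  simp only [e1]
  rw [h]
  congr 1
  refine Finset.sum_congr rfl fun j _ => ?_
  rw [norm_mul, norm_mul, norm_mul, norm_pow, norm_pow, norm_pow, Complex.norm_natCast,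
    Complex.norm_real, Real.norm_eq_abs, mul_pow, mul_pow, mul_pow, ← pow_mul, ← pow_mul,
    ← pow_mul, mul_comm j 2, mul_comm (k - j) 2, pow_mul |ρ|, sq_abs, ← pow_mul]
  ring

theorem bd (a b : ℝ) (ha : 0 ≤ a) (hb : 0 ≤ b) (k j : ℕ) (hj : j ≤ k) :
    a ^ (2 * (k - j)) * b ^ (2 * j) ≤ a ^ (2 * k) + b ^ (2 * k) := by
  have hk : 2 * (k - j) + 2 * j = 2 * k := by omega
  rcases le_total a b with h | h
  · calc a ^ (2 * (k - j)) * b ^ (2 * j) ≤ b ^ (2 * (k - j)) * b ^ (2 * j) :=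
          mul_le_mul_of_nonneg_right (pow_le_pow_left₀ ha h _) (pow_nonneg hb _)
      _ = b ^ (2 * k) := by rw [← pow_add, hk]
      _ ≤ _ := le_add_of_nonneg_left (pow_nonneg ha _)
  · calc a ^ (2 * (k - j)) * b ^ (2 * j) ≤ a ^ (2 * (k - j)) * a ^ (2 * j) :=
          mul_le_mul_of_nonneg_left (pow_le_pow_left₀ hb h _) (pow_nonneg ha _)
      _ = a ^ (2 * k) := by rw [← pow_add, hk]
      _ ≤ _ := le_add_of_nonneg_right (pow_nonneg hb _)

theorem poly_zero (k : ℕ) (d : ℕ → ℝ)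
    (h : ∀ ρ : ℝ, ∑ j ∈ range (k + 1), d j * ρ ^ (2 * j) = 0) (j : ℕ) (hj : j ≤ k) : d j = 0 := by
  set P : Polynomial ℝ := ∑ j ∈ range (k + 1), Polynomial.C (d j) * Polynomial.X ^ j with hP
  have hP0 : P = 0 := by
    apply Polynomial.eq_zero_of_infinite_isRoot
    refine Set.Infinite.mono ?_ (Set.Ici_infinite (0:ℝ))
    intro x hx
    have hx0 : 0 ≤ x := hx
    have := h (Real.sqrt x)
    change Polynomial.IsRoot P x
    rw [Polynomial.IsRoot.def, hP, Polynomial.eval_finsetSum, ← this]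
    refine Finset.sum_congr rfl fun i _ => ?_
    rw [Polynomial.eval_mul, Polynomial.eval_C, Polynomial.eval_pow, Polynomial.eval_X, pow_mul,
      Real.sq_sqrt hx0]
  have hc : P.coeff j = d j := by
    rw [hP, Polynomial.finsetSum_coeff]
    simp only [Polynomial.coeff_C_mul_X_pow]
    rw [Finset.sum_ite_eq, if_pos (Finset.mem_range.2 (Nat.lt_succ_of_le hj))]
  rw [← hc, hP0, Polynomial.coeff_zero]

end CO641

open CO641 Finset in
theorem co : S_CO := by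
  intro k hk f g c hf hg hc
  set μ := volume.restrict (Set.Ioo (0:ℝ) 1) with hμ
  have h2k : 2 * k ≠ 0 := by omega
  have hcast : ((2 : ENNReal) * (k : ENNReal)) = ((2 * k : ℕ) : ENNReal) := by push_cast; rfl
  rw [hcast] at hf hg
  have hfi : Integrable (fun t => ‖f t‖ ^ (2 * k)) μ := hf.integrable_norm_pow h2k
  have hgi : Integrable (fun t => ‖g t‖ ^ (2 * k)) μ := hg.integrable_norm_pow h2k
  have hI : ∀ j ≤ k, Integrable (fun t => ‖f t‖ ^ (2 * (k - j)) * ‖g t‖ ^ (2 * j)) μ := by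
    intro j hj
    refine Integrable.mono' (hfi.add hgi) ?_ ?_
    · exact (hf.1.norm.pow _).mul (hg.1.norm.pow _)
    · refine Filter.Eventually.of_forall fun t => ?_
      rw [Real.norm_eq_abs, abs_of_nonneg (by positivity)]
      exact bd _ _ (norm_nonneg _) (norm_nonneg _) k j hj
  have hN : k + 1 ≠ 0 := Nat.succ_ne_zero k
  have hζ : IsPrimitiveRoot (Complex.exp (2 * Real.pi * Complex.I / ((k + 1 : ℕ) : ℂ))) (k + 1) :=
    Complex.isPrimitiveRoot_exp (k + 1) hN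
  set ζ : ℂ := Complex.exp (2 * Real.pi * Complex.I / ((k + 1 : ℕ) : ℂ)) with hζdef
  have hζ1 : ‖ζ‖ = 1 := hζ.norm'_eq_one hN
  have key : ∀ ρ : ℝ, ∑ j ∈ range (k + 1), (((k.choose j : ℝ)) ^ 2 *
      (∫ t, ‖f t‖ ^ (2 * (k - j)) * ‖g t‖ ^ (2 * j) ∂μ) - c j) * ρ ^ (2 * j) = 0 := by
    intro ρ
    have h1 : ∑ s ∈ range (k + 1), ∫ t, ‖f t + ((ρ : ℂ) * ζ ^ s) * g t‖ ^ (2 * k) ∂μ =
        ((k : ℝ) + 1) * ∑ j ∈ range (k + 1), c j * ρ ^ (2 * j) := by
      have e : ∀ s ∈ range (k + 1), ∫ t, ‖f t + ((ρ : ℂ) * ζ ^ s) * g t‖ ^ (2 * k) ∂μ =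
          ∑ j ∈ range (k + 1), c j * ρ ^ (2 * j) := by
        intro s _
        rw [hc]
        refine Finset.sum_congr rfl fun j _ => ?_
        rw [norm_mul, norm_pow, hζ1, one_pow, mul_one, Complex.norm_real, Real.norm_eq_abs,
          pow_mul, sq_abs, ← pow_mul]
      rw [Finset.sum_congr rfl e, Finset.sum_const, Finset.card_range, nsmul_eq_mul]
      push_cast
      rfl
    have h2 : ∑ s ∈ range (k + 1), ∫ t, ‖f t + ((ρ : ℂ) * ζ ^ s) * g t‖ ^ (2 * k) ∂μ =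
        ((k : ℝ) + 1) * ∑ j ∈ range (k + 1), ((k.choose j : ℝ)) ^ 2 * ρ ^ (2 * j) *
          ∫ t, ‖f t‖ ^ (2 * (k - j)) * ‖g t‖ ^ (2 * j) ∂μ := by
      rw [← integral_finsetSum]
      · simp only [pt k hζ]
        rw [integral_const_mul, integral_finsetSum]
        · congr 1
          refine Finset.sum_congr rfl fun j _ => ?_
          rw [integral_const_mul]
        · intro j hj
          exact (hI j (Nat.lt_succ_iff.1 (Finset.mem_range.1 hj))).const_mul _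
      · intro s _
        have hm : MemLp (fun t => f t + ((ρ : ℂ) * ζ ^ s) * g t) ((2 * k : ℕ) : ENNReal) μ :=
          hf.add (hg.const_mul _)
        exact hm.integrable_norm_pow h2k
    have hk1 : ((k : ℝ) + 1) ≠ 0 := by positivity
    have h3 := mul_left_cancel₀ hk1 (h2.symm.trans h1)
    simp only [sub_mul, Finset.sum_sub_distrib]
    rw [sub_eq_zero, ← h3]
    refine Finset.sum_congr rfl fun j _ => ?_
    ring
  intro j hj
  exact ⟨hI j hj, sub_eq_zero.1 (poly_zero k _ key j hj)⟩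

end Pool.Agent.R260.SC
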