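import Mathlib

/-!
# Two-dimensional subspaces of Schatten classes (MP_41c25d_an): definitions and statements
-/

set_option autoImplicit false

open MeasureTheory Matrix

namespace Pool.Agent.R260.SC

/-- `‖M‖_{S_p}^p = tr |M|^p = ∑ λ_i^(p/2)`, `λ_i` the eigenvalues of `Mᴴ M`, for a complex `n × n`
matrix `M` and real `p`. -/
noncomputable def sch {n : ℕ} (p : ℝ) (M : Matrix (Fin n) (Fin n) ℂ) : ℝ :=
  ∑ i, (isHermitian_conjTranspose_mul_self M).eigenvalues i ^ (p / 2)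

/-- the complex span of `A, B` in `S_p` is isometric to a subspace of `L_p((0,1), ℂ)` -/
def Embeds {n : ℕ} (p : ℝ) (A B : Matrix (Fin n) (Fin n) ℂ) : Prop :=
  ∃ f g : ℝ → ℂ, MemLp f (ENNReal.ofReal p) (volume.restrict (Set.Ioo (0:ℝ) 1)) ∧
    MemLp g (ENNReal.ofReal p) (volume.restrict (Set.Ioo (0:ℝ) 1)) ∧
    ∀ α β : ℂ, sch p (α • A + β • B) =
      ∫ t in Set.Ioo (0:ℝ) 1, ‖α * f t + β * g t‖ ^ p

/-- TR: even exponents are traces of powers -/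
def S_TR : Prop := ∀ (n k : ℕ) (M : Matrix (Fin n) (Fin n) ℂ),
  ((sch (2 * k) M : ℝ) : ℂ) = ((Mᴴ * M) ^ k).trace

/-- the Lorentz form on `ℝ^4` -/
def lor (v : Fin 4 → ℝ) : ℝ := v 0 ^ 2 - v 1 ^ 2 - v 2 ^ 2 - v 3 ^ 2

/-- SZ: a sum of squares of linear forms (given by vectors) with total Lorentz form zero can be
rewritten with null vectors (Sturm-Zhang) -/
def S_SZ : Prop := ∀ (m : ℕ) (v : Fin m → Fin 4 → ℝ), ∑ i, lor (v i) = 0 →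
  ∃ (m' : ℕ) (u : Fin m' → Fin 4 → ℝ), (∀ i, lor (u i) = 0) ∧
    ∀ a : Fin 4 → ℝ, ∑ i, (∑ j, a j * u i j) ^ 2 = ∑ i, (∑ j, a j * v i j) ^ 2

/-- the null vector of `(α, β)`: coordinates of `(α,β)(α,β)*` -/
noncomputable def nv (α β : ℂ) : Fin 4 → ℝ :=
  ![‖α‖ ^ 2 + ‖β‖ ^ 2, ‖α‖ ^ 2 - ‖β‖ ^ 2, 2 * (star α * β).re, 2 * (star α * β).im]

/-- NU: a square of the form `(∑ a_j u_j)^2`, `u` null, at the null vector of `(α,β)` is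
`|α f + β g|^4` -/
def S_NU : Prop := ∀ u : Fin 4 → ℝ, lor u = 0 → ∃ f g : ℂ, ∀ α β : ℂ,
  (∑ j, nv α β j * u j) ^ 2 = ‖α * f + β * g‖ ^ 4

/-- GR: for matrices `A, B`, `tr (M* M)^2` (`M = αA + βB`) is a sum of squares of linear forms of
the null vector of `(α,β)`, with total Lorentz form zero -/
def S_GR : Prop := ∀ (n : ℕ) (A B : Matrix (Fin n) (Fin n) ℂ),
  ∃ (m : ℕ) (v : Fin m → Fin 4 → ℝ), ∑ i, lor (v i) = 0 ∧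
    ∀ α β : ℂ, (((α • A + β • B)ᴴ * (α • A + β • B)) ^ 2).trace =
      ((∑ i, (∑ j, nv α β j * v i j) ^ 2 : ℝ) : ℂ)

/-- SF: finitely many vectors give simple functions on `(0,1)` -/
def S_SF : Prop := ∀ (m : ℕ) (f g : Fin m → ℂ), ∃ F G : ℝ → ℂ,
  MemLp F 4 (volume.restrict (Set.Ioo (0:ℝ) 1)) ∧ MemLp G 4 (volume.restrict (Set.Ioo (0:ℝ) 1)) ∧
    ∀ α β : ℂ, ∫ t in Set.Ioo (0:ℝ) 1, ‖α * F t + β * G t‖ ^ (4:ℝ) =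
      ∑ i, ‖α * f i + β * g i‖ ^ 4

/-- the Jordan block pair -/
def E₁₂ : Matrix (Fin 2) (Fin 2) ℂ := !![0, 1; 0, 0]

/-- coefficients of `tr ((M* M)^k)`, `M = 1 + β E₁₂`, as a polynomial in `|β|²` -/
noncomputable def cf : ℕ → ℕ → ℝ
  | 0, j => if j = 0 then 2 else 0
  | 1, j => if j = 0 then 2 else if j = 1 then 1 else 0
  | k + 2, 0 => 2 * cf (k + 1) 0 - cf k 0
  | k + 2, j + 1 => 2 * cf (k + 1) (j + 1) + cf (k + 1) j - cf k (j + 1)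

/-- JT: traces of the Jordan pair -/
def S_JT : Prop := ∀ (k : ℕ) (β : ℂ),
  ((((1 : ℂ) • (1 : Matrix (Fin 2) (Fin 2) ℂ) + β • E₁₂)ᴴ * ((1 : ℂ) • 1 + β • E₁₂)) ^ k).trace =
    ((∑ j ∈ Finset.range (k + 1), cf k j * ‖β‖ ^ (2 * j) : ℝ) : ℂ)

/-- CO: comparison of coefficients -/
def S_CO : Prop := ∀ (k : ℕ), 1 ≤ k → ∀ (f g : ℝ → ℂ) (c : ℕ → ℝ),
  MemLp f (2 * k) (volume.restrict (Set.Ioo (0:ℝ) 1)) →
  MemLp g (2 * k) (volume.restrict (Set.Ioo (0:ℝ) 1)) →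
  (∀ β : ℂ, ∫ t in Set.Ioo (0:ℝ) 1, ‖f t + β * g t‖ ^ (2 * k) =
    ∑ j ∈ Finset.range (k + 1), c j * ‖β‖ ^ (2 * j)) →
  ∀ j ≤ k, IntegrableOn (fun t => ‖f t‖ ^ (2 * (k - j)) * ‖g t‖ ^ (2 * j)) (Set.Ioo (0:ℝ) 1) ∧
    ((k.choose j : ℝ)) ^ 2 *
      ∫ t in Set.Ioo (0:ℝ) 1, ‖f t‖ ^ (2 * (k - j)) * ‖g t‖ ^ (2 * j) = c j

/-- HK: the moment inequalities fail -/
def S_HK : Prop := ∀ (k : ℕ), 4 ≤ k → ∀ (f g : ℝ → ℂ),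
  (∀ j ≤ k, IntegrableOn (fun t => ‖f t‖ ^ (2 * (k - j)) * ‖g t‖ ^ (2 * j)) (Set.Ioo (0:ℝ) 1) ∧
    ((k.choose j : ℝ)) ^ 2 *
      ∫ t in Set.Ioo (0:ℝ) 1, ‖f t‖ ^ (2 * (k - j)) * ‖g t‖ ^ (2 * j) = cf k j) → False

/-- P10: real exponents `p > 10` (optional) -/
def S_P10 : Prop := ∀ p : ℝ, 10 < p →
  ¬ Embeds p (1 : Matrix (Fin 2) (Fin 2) ℂ) E₁₂

end Pool.Agent.R260.SC
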