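import Pool.Agent.R260.SC.Defs

/-!
# The infinite-dimensional case for `p = 4` (MP_41c25d_an): statements
-/

set_option autoImplicit false

open MeasureTheory Matrix Filter Topology

namespace Pool.Agent.R260.SC

universe u

/-- the `n × n` corner of `M` in the basis `b` -/
noncomputable def corner {H : Type u} [NormedAddCommGroup H] [InnerProductSpace ℂ H]
    (b : HilbertBasis ℕ ℂ H) (M : H →L[ℂ] H) (n : ℕ) : Matrix (Fin n) (Fin n) ℂ :=
  fun i j => inner ℂ (b i) (M (b j))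

/-- IL: `tr |M|^4` is the limit over the corners (values in `[0,∞]`, no summability assumed) -/
def S_IL : Prop := ∀ (H : Type u) [NormedAddCommGroup H] [InnerProductSpace ℂ H]
  [CompleteSpace H] (b : HilbertBasis ℕ ℂ H) (M : H →L[ℂ] H),
  Tendsto (fun n => ENNReal.ofReal ((((corner b M n)ᴴ * corner b M n) ^ 2).trace).re) atTop
    (𝓝 (∑' i, ENNReal.ofReal (‖(ContinuousLinearMap.adjoint M) (M (b i))‖ ^ 2)))

/-- LC: limits of sums of squares with Lorentz trace zero -/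
def S_LC : Prop := ∀ (N : ℕ → ℂ → ℂ → ℝ) (C : ℝ),
  (∀ n, ∃ (m : ℕ) (v : Fin m → Fin 4 → ℝ), ∑ i, lor (v i) = 0 ∧
    ∀ α β : ℂ, N n α β = ∑ i, (∑ j, nv α β j * v i j) ^ 2) →
  (∀ n, N n 1 0 ≤ C ∧ N n 0 1 ≤ C) →
  ∃ (m : ℕ) (v : Fin m → Fin 4 → ℝ), ∑ i, lor (v i) = 0 ∧ ∃ φ : ℕ → ℕ, StrictMono φ ∧
    ∀ α β : ℂ, Tendsto (fun n => N (φ n) α β) atTop (𝓝 (∑ i, (∑ j, nv α β j * v i j) ^ 2))

end Pool.Agent.R260.SC
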