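import Pool.Agent.R260.SC.Defs

/-!
# Real exponents `p = 2k > 8` (MP_41c25d_an): statements
-/

set_option autoImplicit false

open MeasureTheory Matrix Filter Topology

namespace Pool.Agent.R260.SC

/-- generalised binomial coefficients -/
noncomputable def bc (k : ℝ) : ℕ → ℝ
  | 0 => 1
  | i + 1 => bc k i * (k - i) / (i + 1)

/-- coefficients of `2 cosh (2 k arsinh (√r / 2))` in powers of `r` -/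
noncomputable def cr (k : ℝ) : ℕ → ℝ
  | 0 => 2
  | i + 1 => cr k i * (k ^ 2 - i ^ 2) / ((2 * i + 1) * (2 * i + 2))

/-- PA: expansion of an average of `|F + zG|^(2k)` -/
def S_PA : Prop := ∀ k : ℝ, 4 < k → ∃ (C q : ℝ) (ζ : ℕ → ℂ), 0 ≤ C ∧ 8 < q ∧ q ≤ 2 * k ∧
  (∀ j, ‖ζ j‖ = 1) ∧ ∀ (F G : ℂ) (ρ : ℝ), 0 < ρ →
    |(∑ j ∈ Finset.range 9, ‖F + (ρ * ζ j) * G‖ ^ (2 * k)) / 9 -
      ∑ i ∈ Finset.range 5, bc k i ^ 2 * (‖F‖ ^ (2 * k - 2 * i) * ‖G‖ ^ (2 * i)) * ρ ^ (2 * i)| ≤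
      C * (ρ ^ q * (‖F‖ ^ (2 * k - q) * ‖G‖ ^ q) + ρ ^ (2 * k) * ‖G‖ ^ (2 * k))

/-- PA1: Taylor expansion of `(1+z)^k` -/
def S_PA1 : Prop := ∀ k : ℝ, ∃ C δ : ℝ, 0 ≤ C ∧ 0 < δ ∧ ∀ z : ℂ, ‖z‖ ≤ δ →
  ‖(1 + z) ^ (k : ℂ) - ∑ i ∈ Finset.range 9, (bc k i : ℂ) * z ^ i‖ ≤ C * ‖z‖ ^ 9

/-- PA2: the local expansion of the average -/
def S_PA2 : Prop := ∀ k : ℝ, 4 < k → ∃ (C δ : ℝ) (ζ : ℕ → ℂ), 0 ≤ C ∧ 0 < δ ∧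
  (∀ j, ‖ζ j‖ = 1) ∧ ∀ z : ℂ, ‖z‖ ≤ δ →
    |(∑ j ∈ Finset.range 9, ‖1 + ζ j * z‖ ^ (2 * k)) / 9 -
      ∑ i ∈ Finset.range 5, bc k i ^ 2 * ‖z‖ ^ (2 * i)| ≤ C * ‖z‖ ^ 9

/-- PB: the norm of the Jordan pair -/
def S_PB : Prop := ∀ (p : ℝ) (β : ℂ),
  sch p ((1 : ℂ) • (1 : Matrix (Fin 2) (Fin 2) ℂ) + β • E₁₂) =
    2 * Real.cosh (p * Real.arsinh (‖β‖ / 2))

/-- PC: expansion of `2 cosh` -/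
def S_PC : Prop := ∀ k : ℝ, 4 < k → ∃ C δ : ℝ, 0 ≤ C ∧ 0 < δ ∧ ∀ ρ : ℝ, 0 < ρ → ρ < δ →
  |2 * Real.cosh (2 * k * Real.arsinh (ρ / 2)) - ∑ i ∈ Finset.range 5, cr k i * ρ ^ (2 * i)| ≤
    C * ρ ^ 10

/-- PD: comparison of coefficients -/
def S_PD : Prop := ∀ (d : ℕ → ℝ) (q C δ : ℝ), 8 < q → 0 < δ →
  (∀ ρ : ℝ, 0 < ρ → ρ < δ → |∑ i ∈ Finset.range 5, d i * ρ ^ (2 * i)| ≤ C * ρ ^ q) →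
  ∀ i : ℕ, i < 5 → d i = 0

/-- PE: integrated form: the moments are determined -/
def S_PE : Prop := ∀ (k : ℝ) (f g : ℝ → ℂ), 4 < k →
  MemLp f (ENNReal.ofReal (2 * k)) (volume.restrict (Set.Ioo (0:ℝ) 1)) →
  MemLp g (ENNReal.ofReal (2 * k)) (volume.restrict (Set.Ioo (0:ℝ) 1)) →
  (∀ β : ℂ, ∫ t in Set.Ioo (0:ℝ) 1, ‖f t + β * g t‖ ^ (2 * k) =
    2 * Real.cosh (2 * k * Real.arsinh (‖β‖ / 2))) →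
  ∀ i : ℕ, i < 5 → IntegrableOn (fun t => ‖f t‖ ^ (2 * k - 2 * i) * ‖g t‖ ^ (2 * i)) (Set.Ioo (0:ℝ) 1) ∧
    bc k i ^ 2 * ∫ t in Set.Ioo (0:ℝ) 1, ‖f t‖ ^ (2 * k - 2 * i) * ‖g t‖ ^ (2 * i) = cr k i

/-- PF: the moment inequalities fail -/
def S_PF : Prop := ∀ (k : ℝ) (f g : ℝ → ℂ), 4 < k →
  (∀ i : ℕ, i < 5 → IntegrableOn (fun t => ‖f t‖ ^ (2 * k - 2 * i) * ‖g t‖ ^ (2 * i)) (Set.Ioo (0:ℝ) 1) ∧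
    bc k i ^ 2 * ∫ t in Set.Ioo (0:ℝ) 1, ‖f t‖ ^ (2 * k - 2 * i) * ‖g t‖ ^ (2 * i) = cr k i) →
  False

end Pool.Agent.R260.SC
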