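import Pool.Agent.R260.SC.Defs

/-!
# SC-HK: the moment inequalities fail for `k ≥ 4`
-/

set_option autoImplicit false

open MeasureTheory Matrix

namespace Pool.Agent.R260.SC

theorem cf_zero : ∀ k : ℕ, cf k 0 = 2
  | 0 => by simp [cf]
  | 1 => by simp [cf]
  | k + 2 => by
      rw [cf, cf_zero (k + 1), cf_zero k]; norm_num

theorem cf_one : ∀ k : ℕ, cf k 1 = (k : ℝ) ^ 2
  | 0 => by simp [cf]
  | 1 => by simp [cf]
  | k + 2 => by
      rw [cf, cf_one (k + 1), cf_one k, cf_zero (k + 1)]; push_cast; ring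

theorem cf_two : ∀ k : ℕ, cf k 2 = (k : ℝ) ^ 2 * ((k : ℝ) ^ 2 - 1) / 12
  | 0 => by simp [cf]
  | 1 => by simp [cf]
  | k + 2 => by
      rw [cf, cf_two (k + 1), cf_two k, cf_one (k + 1)]; push_cast; ring

/-- integrating a nonnegative polynomial -/
theorem hk_key (k n : ℕ) (hn : n ≤ k + 1) (f g : ℝ → ℂ) (c : ℕ → ℝ)
    (h : ∀ j ≤ k, IntegrableOn (fun t => ‖f t‖ ^ (2 * (k - j)) * ‖g t‖ ^ (2 * j))
      (Set.Ioo (0:ℝ) 1))
    (hpos : ∀ x y : ℝ, 0 ≤ x → 0 ≤ y →
      0 ≤ ∑ j ∈ Finset.range n, c j * (x ^ (k - j) * y ^ j)) :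
    0 ≤ ∑ j ∈ Finset.range n, c j *
      ∫ t in Set.Ioo (0:ℝ) 1, ‖f t‖ ^ (2 * (k - j)) * ‖g t‖ ^ (2 * j) := by
  have h1 : ∑ j ∈ Finset.range n, c j *
      ∫ t in Set.Ioo (0:ℝ) 1, ‖f t‖ ^ (2 * (k - j)) * ‖g t‖ ^ (2 * j) =
      ∫ t in Set.Ioo (0:ℝ) 1, ∑ j ∈ Finset.range n, c j *
        (‖f t‖ ^ (2 * (k - j)) * ‖g t‖ ^ (2 * j)) := by
    rw [integral_finsetSum]
    · refine Finset.sum_congr rfl fun j _ => ?_
      rw [integral_const_mul]
    · intro j hj
      have hj' : j ≤ k := by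
        have := Finset.mem_range.1 hj
        omega
      exact (h j hj').const_mul (c j)
  rw [h1]
  refine integral_nonneg fun t => ?_
  have h2 := hpos (‖f t‖ ^ 2) (‖g t‖ ^ 2) (by positivity) (by positivity)
  have h3 : 0 ≤ ∑ j ∈ Finset.range n, c j * (‖f t‖ ^ (2 * (k - j)) * ‖g t‖ ^ (2 * j)) := by
    simpa only [← pow_mul] using h2
  exact h3

theorem hk : S_HK := by
  intro k hk4 f g h
  have hint : ∀ j ≤ k, IntegrableOn (fun t => ‖f t‖ ^ (2 * (k - j)) * ‖g t‖ ^ (2 * j))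
      (Set.Ioo (0:ℝ) 1) := fun j hj => (h j hj).1
  have hval : ∀ j ≤ k, ((k.choose j : ℝ)) ^ 2 *
      ∫ t in Set.Ioo (0:ℝ) 1, ‖f t‖ ^ (2 * (k - j)) * ‖g t‖ ^ (2 * j) = cf k j :=
    fun j hj => (h j hj).2
  clear h
  obtain rfl | rfl | hk6 : k = 4 ∨ k = 5 ∨ 6 ≤ k := by omega
  · have key := hk_key 4 5 (by norm_num) f g
      (fun j => if j = 0 then 961 else if j = 1 then -4464 else if j = 2 then 6300
        else if j = 3 then -2592 else 324) hint (by
        intro x y hx hy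
        have : ∑ j ∈ Finset.range 5, (fun j : ℕ => if j = 0 then (961:ℝ) else if j = 1 then -4464
            else if j = 2 then 6300 else if j = 3 then -2592 else 324) j *
            (x ^ (4 - j) * y ^ j) = (31 * x ^ 2 - 72 * x * y + 18 * y ^ 2) ^ 2 := by
          simp [Finset.sum_range_succ]; ring
        rw [this]; positivity)
    have v0 := hval 0 (by norm_num)
    have v1 := hval 1 (by norm_num)
    have v2 := hval 2 (by norm_num)
    have v3 := hval 3 (by norm_num)
    have v4 := hval 4 (by norm_num)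
    have c3 : cf 4 3 = 8 := by simp [cf]; norm_num
    have c4 : cf 4 4 = 1 := by simp [cf]
    rw [cf_zero] at v0
    rw [cf_one] at v1
    rw [cf_two] at v2
    rw [c3] at v3
    rw [c4] at v4
    have e2 : Nat.choose 4 2 = 6 := by decide
    have e3 : Nat.choose 4 3 = 4 := by decide
    rw [e2] at v2
    rw [e3] at v3
    generalize hI : (fun j : ℕ => ∫ t in Set.Ioo (0:ℝ) 1, ‖f t‖ ^ (2 * (4 - j)) * ‖g t‖ ^ (2 * j)) = I
    have hI' : ∀ j : ℕ, ∫ t in Set.Ioo (0:ℝ) 1, ‖f t‖ ^ (2 * (4 - j)) * ‖g t‖ ^ (2 * j) = I j :=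
      fun j => congrFun hI j
    simp only [hI'] at v0 v1 v2 v3 v4 key
    norm_num [Finset.sum_range_succ] at v0 v1 v2 v3 v4 key
    linarith
  · have key := hk_key 5 5 (by norm_num) f g
      (fun j => if j = 0 then 4 else if j = 1 then -16 else if j = 2 then 20
        else if j = 3 then -8 else 1) hint (by
        intro x y hx hy
        have : ∑ j ∈ Finset.range 5, (fun j : ℕ => if j = 0 then (4:ℝ) else if j = 1 then -16
            else if j = 2 then 20 else if j = 3 then -8 else 1) j *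
            (x ^ (5 - j) * y ^ j) = x * (2 * x ^ 2 - 4 * x * y + y ^ 2) ^ 2 := by
          simp [Finset.sum_range_succ]; ring
        rw [this]; positivity)
    have v0 := hval 0 (by norm_num)
    have v1 := hval 1 (by norm_num)
    have v2 := hval 2 (by norm_num)
    have v3 := hval 3 (by norm_num)
    have v4 := hval 4 (by norm_num)
    have c3 : cf 5 3 = 35 := by simp [cf]; norm_num
    have c4 : cf 5 4 = 10 := by simp [cf]; norm_num
    rw [cf_zero] at v0
    rw [cf_one] at v1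
    rw [cf_two] at v2
    rw [c3] at v3
    rw [c4] at v4
    have e2 : Nat.choose 5 2 = 10 := by decide
    have e3 : Nat.choose 5 3 = 10 := by decide
    have e4 : Nat.choose 5 4 = 5 := by decide
    rw [e2] at v2
    rw [e3] at v3
    rw [e4] at v4
    generalize hI : (fun j : ℕ => ∫ t in Set.Ioo (0:ℝ) 1, ‖f t‖ ^ (2 * (5 - j)) * ‖g t‖ ^ (2 * j)) = I
    have hI' : ∀ j : ℕ, ∫ t in Set.Ioo (0:ℝ) 1, ‖f t‖ ^ (2 * (5 - j)) * ‖g t‖ ^ (2 * j) = I j :=
      fun j => congrFun hI j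
    simp only [hI'] at v0 v1 v2 v3 v4 key
    norm_num [Finset.sum_range_succ] at v0 v1 v2 v3 v4 key
    linarith
  · have key := hk_key k 3 (by omega) f g
      (fun j => if j = 0 then 1 / 4 else if j = 1 then -1 else 1) hint (by
        intro x y hx hy
        obtain ⟨m, rfl⟩ : ∃ m, k = m + 2 := ⟨k - 2, by omega⟩
        have : ∑ j ∈ Finset.range 3, (fun j : ℕ => if j = 0 then (1/4:ℝ) else if j = 1 then -1
            else 1) j * (x ^ (m + 2 - j) * y ^ j) = x ^ m * (x / 2 - y) ^ 2 := by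
          simp [Finset.sum_range_succ]; ring
        rw [this]; positivity)
    have v0 := hval 0 (by omega)
    have v1 := hval 1 (by omega)
    have v2 := hval 2 (by omega)
    rw [cf_zero] at v0
    rw [cf_one] at v1
    rw [cf_two] at v2
    have hkR : (6:ℝ) ≤ k := by exact_mod_cast hk6
    have ch2 : ((k.choose 2 : ℕ) : ℝ) = k * (k - 1) / 2 := Nat.cast_choose_two ℝ k
    generalize hI : (fun j : ℕ => ∫ t in Set.Ioo (0:ℝ) 1, ‖f t‖ ^ (2 * (k - j)) * ‖g t‖ ^ (2 * j)) = I
    have hI' : ∀ j : ℕ, ∫ t in Set.Ioo (0:ℝ) 1, ‖f t‖ ^ (2 * (k - j)) * ‖g t‖ ^ (2 * j) = I j :=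
      fun j => congrFun hI j
    simp only [hI'] at v0 v1 v2 key
    rw [ch2] at v2
    simp only [Nat.choose_zero_right, Nat.choose_one_right, Nat.cast_one, one_pow, one_mul] at v0 v1
    have hk0 : (k:ℝ) ≠ 0 := by positivity
    have v1' : I 1 = 1 := by
      have : (k:ℝ) ^ 2 * (I 1 - 1) = 0 := by linarith
      rcases mul_eq_zero.1 this with h | h
      · exact absurd h (by positivity)
      · linarith
    have v2' : (k - 1 : ℝ) * I 2 = (k + 1) / 3 := by
      have : (k:ℝ) ^ 2 * (k - 1) * (((k:ℝ) - 1) * I 2 - (k + 1) / 3) = 0 := by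
        linear_combination 4 * v2
      rcases mul_eq_zero.1 this with h | h
      · exfalso
        have : (0:ℝ) < (k:ℝ) ^ 2 * (k - 1) := by
          apply mul_pos (by positivity); linarith
        linarith
      · linarith
    norm_num [Finset.sum_range_succ] at key
    rw [v0, v1'] at key
    nlinarith
end Pool.Agent.R260.SC
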