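import Pool.Agent.R260.SC.Defs

/-!
# Traces of powers for the Jordan pair
-/

set_option autoImplicit false

open Matrix

namespace Pool.Agent.R260.SC

theorem cf_zero_of_lt : ∀ k j : ℕ, k < j → cf k j = 0
  | 0, j, h => by
      have h0 : j ≠ 0 := by omega
      simp [cf, h0]
  | 1, j, h => by
      have h0 : j ≠ 0 := by omega
      have h1 : j ≠ 1 := by omega
      simp [cf, h0, h1]
  | k + 2, 0, h => by omega
  | k + 2, j + 1, h => by
      rw [cf, cf_zero_of_lt (k+1) (j+1) (by omega), cf_zero_of_lt (k+1) j (by omega),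
        cf_zero_of_lt k (j+1) (by omega)]
      ring

/-- the polynomial of the coefficients -/
noncomputable def jts (k : ℕ) (r : ℝ) : ℝ := ∑ j ∈ Finset.range (k + 1), cf k j * r ^ j

theorem jts_ext (k n : ℕ) (h : k ≤ n) (r : ℝ) :
    ∑ j ∈ Finset.range (n + 1), cf k j * r ^ j = jts k r := by
  unfold jts
  symm
  apply Finset.sum_subset
  · intro x hx
    simp only [Finset.mem_range] at hx ⊢
    omega
  · intro x _ hx
    simp only [Finset.mem_range] at hx
    rw [cf_zero_of_lt k x (by omega), zero_mul]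

theorem jts_rec (k : ℕ) (r : ℝ) : jts (k + 2) r = (2 + r) * jts (k + 1) r - jts k r := by
  have h1 := jts_ext (k + 1) (k + 2) (by omega) r
  have h2 := jts_ext k (k + 2) (by omega) r
  have h3 : jts (k + 2) r = ∑ j ∈ Finset.range (k + 2 + 1), cf (k + 2) j * r ^ j := rfl
  have h4 : jts (k + 1) r = ∑ j ∈ Finset.range (k + 2), cf (k + 1) j * r ^ j := rfl
  rw [Finset.sum_range_succ'] at h1 h2 h3
  have h5 : ∑ j ∈ Finset.range (k + 2), cf (k + 2) (j + 1) * r ^ (j + 1) =
      2 * ∑ j ∈ Finset.range (k + 2), cf (k + 1) (j + 1) * r ^ (j + 1) +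
      r * ∑ j ∈ Finset.range (k + 2), cf (k + 1) j * r ^ j -
      ∑ j ∈ Finset.range (k + 2), cf k (j + 1) * r ^ (j + 1) := by
    rw [Finset.mul_sum, Finset.mul_sum, ← Finset.sum_add_distrib, ← Finset.sum_sub_distrib]
    apply Finset.sum_congr rfl
    intro j _
    rw [cf, pow_succ]
    ring
  have h6 : cf (k + 2) 0 = 2 * cf (k + 1) 0 - cf k 0 := by rw [cf]
  rw [h3, h5, h6, ← h4]
  linarith

/-- the matrix `M* M` -/
noncomputable def jN (β : ℂ) : Matrix (Fin 2) (Fin 2) ℂ := !![1, β; star β, 1 + star β * β]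

theorem jN_eq (β : ℂ) :
    (((1 : ℂ) • (1 : Matrix (Fin 2) (Fin 2) ℂ) + β • E₁₂)ᴴ * ((1 : ℂ) • 1 + β • E₁₂)) = jN β := by
  ext i j
  fin_cases i <;> fin_cases j <;>
    simp [jN, E₁₂, Matrix.mul_apply, Fin.sum_univ_two, Matrix.conjTranspose_apply,
      Matrix.add_apply, Matrix.smul_apply]
  ring

theorem jN_sq (β : ℂ) : jN β * jN β = (2 + star β * β) • jN β - 1 := by
  ext i j
  fin_cases i <;> fin_cases j <;>
    simp [jN, Matrix.mul_apply, Fin.sum_univ_two, Matrix.sub_apply, Matrix.smul_apply] <;> ring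

theorem jN_trace_rec (β : ℂ) (k : ℕ) :
    (jN β ^ (k + 2)).trace = (2 + star β * β) * (jN β ^ (k + 1)).trace - (jN β ^ k).trace := by
  have h : jN β ^ (k + 2) = (2 + star β * β) • jN β ^ (k + 1) - jN β ^ k := by
    rw [pow_add, pow_two, jN_sq, mul_sub, mul_one, Matrix.mul_smul, pow_succ]
  rw [h, Matrix.trace_sub, Matrix.trace_smul, smul_eq_mul]

theorem jt_aux (β : ℂ) : ∀ k : ℕ, (jN β ^ k).trace = ((jts k (‖β‖ ^ 2) : ℝ) : ℂ)
  | 0 => by
      simp [jts, cf, Matrix.trace_one]
  | 1 => by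
      have h : star β * β = ((‖β‖ ^ 2 : ℝ) : ℂ) := by
        have := Complex.conj_mul' β
        simpa using this
      have h2 : jts 1 (‖β‖ ^ 2) = 2 + ‖β‖ ^ 2 := by
        simp [jts, cf, Finset.sum_range_succ]
      rw [h2, pow_one, Matrix.trace_fin_two]
      simp only [jN, Matrix.of_apply, Matrix.cons_val', Matrix.cons_val_zero,
        Matrix.cons_val_one, Matrix.cons_val_fin_one]
      rw [h]
      push_cast
      ring
  | k + 2 => by
      have h : star β * β = ((‖β‖ ^ 2 : ℝ) : ℂ) := by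
        have := Complex.conj_mul' β
        simpa using this
      rw [jN_trace_rec, jt_aux β (k + 1), jt_aux β k, jts_rec, h]
      push_cast
      ring

theorem jt : S_JT := by
  intro k β
  rw [jN_eq, jt_aux]
  unfold jts
  congr 1
  apply Finset.sum_congr rfl
  intro j _
  rw [← pow_mul]

end Pool.Agent.R260.SC
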