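import Pool.Agent.R260.SC.TR
import Pool.Agent.R260.SC.JT
import Pool.Agent.R260.SC.CO
import Pool.Agent.R260.SC.HK

set_option autoImplicit false

open MeasureTheory Matrix

namespace Pool.Agent.R260.SC

theorem even_no (k : ℕ) (hk4 : 4 ≤ k) :
    ¬ Embeds (2 * k) (1 : Matrix (Fin 2) (Fin 2) ℂ) E₁₂ := by
  rintro ⟨f, g, hf, hg, h⟩
  have e1 : ENNReal.ofReal (2 * (k:ℝ)) = 2 * (k : ENNReal) := by
    rw [ENNReal.ofReal_mul (by norm_num), ENNReal.ofReal_natCast]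
    norm_num
  rw [e1] at hf hg
  have h2 : ∀ β : ℂ, ∫ t in Set.Ioo (0:ℝ) 1, ‖f t + β * g t‖ ^ (2 * k) =
      ∑ j ∈ Finset.range (k + 1), cf k j * ‖β‖ ^ (2 * j) := by
    intro β
    have h3 := h 1 β
    have h4 := tr 2 k ((1:ℂ) • (1 : Matrix (Fin 2) (Fin 2) ℂ) + β • E₁₂)
    rw [jt k β] at h4
    have h5 : sch (2 * k) ((1:ℂ) • (1 : Matrix (Fin 2) (Fin 2) ℂ) + β • E₁₂) =
        ∑ j ∈ Finset.range (k + 1), cf k j * ‖β‖ ^ (2 * j) := by exact_mod_cast h4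
    rw [h5] at h3
    rw [h3]
    congr 1
    ext t
    rw [one_mul]
    have : (2 * (k:ℝ)) = ((2 * k : ℕ) : ℝ) := by push_cast; ring
    rw [this, Real.rpow_natCast]
  exact hk k hk4 f g (co k (by omega) f g (cf k) hf hg h2)

end Pool.Agent.R260.SC
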