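import Pool.Agent.R260.SC.Defs2

/-! Piece IU of project SC (MP_41c25d_an): the corners have a smaller `tr |M|^4`. -/

set_option autoImplicit false

open MeasureTheory Matrix Filter Topology
open scoped ComplexOrder MatrixOrder

namespace Pool.Agent.R260.SC

namespace IU777

/-- the trace of a product of two PSD matrices has nonnegative real part -/
theorem trace_mul {n : ℕ} {P Q : Matrix (Fin n) (Fin n) ℂ} (hP : P.PosSemidef)
    (hQ : Q.PosSemidef) : 0 ≤ ((P * Q).trace).re := by
  obtain ⟨C, hC⟩ := CStarAlgebra.nonneg_iff_eq_star_mul_self.mp hP.nonneg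
  have h : (P * Q).trace = (C * Q * Cᴴ).trace := by
    rw [hC, Matrix.star_eq_conjTranspose, Matrix.mul_assoc, Matrix.trace_mul_comm]
  rw [h]
  have h2 := (hQ.mul_mul_conjTranspose_same C).trace_nonneg
  exact (Complex.le_def.mp h2).1

end IU777

theorem iu {H : Type*} [NormedAddCommGroup H] [InnerProductSpace ℂ H] [CompleteSpace H]
    (b : HilbertBasis ℕ ℂ H) (M : H →L[ℂ] H) (n : ℕ) :
    ENNReal.ofReal ((((corner b M n)ᴴ * corner b M n) ^ 2).trace).re ≤
      ∑' i, ENNReal.ofReal (‖(ContinuousLinearMap.adjoint M) (M (b i))‖ ^ 2) := by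
  classical
  set X : Matrix (Fin n) (Fin n) ℂ := (corner b M n)ᴴ * corner b M n with hX
  have hXp : X.PosSemidef := Matrix.posSemidef_conjTranspose_mul_self _
  have hb : Orthonormal ℂ (fun k : Fin n => b (k : ℕ)) :=
    b.orthonormal.comp (fun k : Fin n => (k : ℕ)) Fin.val_injective
  let r : Fin n → H := fun i => M (b i) - ∑ k : Fin n, (inner ℂ (b k) (M (b i)) : ℂ) • b (k : ℕ)
  let Z : Matrix (Fin n) (Fin n) ℂ := Matrix.gram ℂ r
  have hZ : Z.PosSemidef := Matrix.posSemidef_gram ℂ r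
  let Y : Matrix (Fin n) (Fin n) ℂ := Matrix.gram ℂ (fun i : Fin n => M (b i))
  have hY : Y = X + Z := by
    ext i j
    have h1 : Z i j = inner ℂ (M (b i)) (M (b j)) -
        ∑ k : Fin n, (starRingEnd ℂ) (inner ℂ (b k) (M (b i))) * inner ℂ (b k) (M (b j)) := by
      change inner ℂ (r i) (r j) = _
      simp only [r]
      rw [inner_sub_left, inner_sub_right, inner_sub_right, hb.inner_sum]
      have e1 : inner ℂ (M (b i)) (∑ k : Fin n, (inner ℂ (b k) (M (b j)) : ℂ) • b (k : ℕ)) =
          ∑ k : Fin n, (starRingEnd ℂ) (inner ℂ (b k) (M (b i))) * inner ℂ (b k) (M (b j)) := by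
        rw [inner_sum]
        refine Finset.sum_congr rfl fun k _ => ?_
        rw [inner_smul_right, inner_conj_symm, mul_comm]
      have e2 : inner ℂ (∑ k : Fin n, (inner ℂ (b k) (M (b i)) : ℂ) • b (k : ℕ)) (M (b j)) =
          ∑ k : Fin n, (starRingEnd ℂ) (inner ℂ (b k) (M (b i))) * inner ℂ (b k) (M (b j)) := by
        rw [sum_inner]
        refine Finset.sum_congr rfl fun k _ => ?_
        rw [inner_smul_left]
      rw [e1, e2]
      ring
    have h2 : X i j =
        ∑ k : Fin n, (starRingEnd ℂ) (inner ℂ (b k) (M (b i))) * inner ℂ (b k) (M (b j)) := by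
      rw [hX, Matrix.mul_apply]
      rfl
    rw [Matrix.add_apply, h1, h2]
    change inner ℂ (M (b i)) (M (b j)) = _
    ring
  have hsum : (X ^ 2).trace.re ≤ (Y ^ 2).trace.re := by
    have h3 : Y ^ 2 = X ^ 2 + X * Z + Z * X + Z * Z := by
      rw [hY]
      noncomm_ring
    rw [h3, Matrix.trace_add, Matrix.trace_add, Matrix.trace_add, Complex.add_re,
      Complex.add_re, Complex.add_re]
    have a1 := IU777.trace_mul hXp hZ
    have a2 := IU777.trace_mul hZ hXp
    have a3 := IU777.trace_mul hZ hZ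
    linarith
  have hYt : (Y ^ 2).trace.re =
      ∑ i : Fin n, ∑ j : Fin n,
        ‖(inner ℂ (b j) ((ContinuousLinearMap.adjoint M) (M (b i))) : ℂ)‖ ^ 2 := by
    rw [Matrix.trace, Complex.re_sum]
    refine Finset.sum_congr rfl fun i _ => ?_
    rw [Matrix.diag_apply, pow_two, Matrix.mul_apply, Complex.re_sum]
    refine Finset.sum_congr rfl fun j _ => ?_
    have e3 : Y j i = inner ℂ (b j) ((ContinuousLinearMap.adjoint M) (M (b i))) := by
      rw [ContinuousLinearMap.adjoint_inner_right]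
      rfl
    have e4 : Y i j = (starRingEnd ℂ) (inner ℂ (b j) ((ContinuousLinearMap.adjoint M) (M (b i)))) := by
      rw [ContinuousLinearMap.adjoint_inner_right, inner_conj_symm]
      rfl
    rw [e3, e4, ← Complex.normSq_eq_conj_mul_self, Complex.ofReal_re, Complex.normSq_eq_norm_sq]
  have hbes : (Y ^ 2).trace.re ≤
      ∑ i : Fin n, ‖(ContinuousLinearMap.adjoint M) (M (b i))‖ ^ 2 := by
    rw [hYt]
    refine Finset.sum_le_sum fun i _ => ?_
    exact hb.sum_inner_products_le _
  calc ENNReal.ofReal (X ^ 2).trace.re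
      ≤ ENNReal.ofReal (∑ i : Fin n, ‖(ContinuousLinearMap.adjoint M) (M (b i))‖ ^ 2) :=
        ENNReal.ofReal_le_ofReal (hsum.trans hbes)
    _ = ∑ i : Fin n, ENNReal.ofReal (‖(ContinuousLinearMap.adjoint M) (M (b i))‖ ^ 2) :=
        ENNReal.ofReal_sum_of_nonneg fun i _ => by positivity
    _ = ∑ i ∈ Finset.range n, ENNReal.ofReal (‖(ContinuousLinearMap.adjoint M) (M (b i))‖ ^ 2) :=
        Fin.sum_univ_eq_sum_range
          (fun i => ENNReal.ofReal (‖(ContinuousLinearMap.adjoint M) (M (b i))‖ ^ 2)) n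
    _ ≤ ∑' i, ENNReal.ofReal (‖(ContinuousLinearMap.adjoint M) (M (b i))‖ ^ 2) :=
        ENNReal.sum_le_tsum _

end Pool.Agent.R260.SC
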