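import Pool.Agent.R260.SC.Defs2

/-!
# `tr |M|^4` is at most the lower limit over the corners (piece `IW`)
-/

set_option autoImplicit false

open MeasureTheory Matrix Filter Topology

namespace Pool.Agent.R260.SC

theorem iw {H : Type*} [NormedAddCommGroup H] [InnerProductSpace ℂ H] [CompleteSpace H]
    (b : HilbertBasis ℕ ℂ H) (M : H →L[ℂ] H) :
    ∑' i, ENNReal.ofReal (‖(ContinuousLinearMap.adjoint M) (M (b i))‖ ^ 2) ≤
      Filter.liminf (fun n => ENNReal.ofReal
        ((((corner b M n)ᴴ * corner b M n) ^ 2).trace).re) Filter.atTop := by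
  classical
  set Y : ℕ → ℕ → ℕ → ℂ := fun n i j =>
    ∑ k ∈ Finset.range n, inner ℂ (M (b i)) (b k) * inner ℂ (b k) (M (b j)) with hYd
  have hY : ∀ i j, Tendsto (fun n => Y n i j) atTop (𝓝 (inner ℂ (M (b i)) (M (b j)))) :=
    fun i j => (b.hasSum_inner_mul_inner _ _).tendsto_sum_nat
  have hX : ∀ n (i j : Fin n), ((corner b M n)ᴴ * corner b M n) i j = Y n i j := by
    intro n i j
    rw [Matrix.mul_apply, hYd]
    simp only
    rw [Finset.sum_range]
    refine Finset.sum_congr rfl fun k _ => ?_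
    rw [Matrix.conjTranspose_apply]
    unfold corner
    rw [← inner_conj_symm (M (b i)) (b k)]
    rfl
  have hYs : ∀ n i j, Y n j i = (starRingEnd ℂ) (Y n i j) := by
    intro n i j
    simp only [hYd]
    rw [map_sum]
    refine Finset.sum_congr rfl fun k _ => ?_
    rw [map_mul, inner_conj_symm, inner_conj_symm, mul_comm]
  have htr : ∀ n, ((((corner b M n)ᴴ * corner b M n) ^ 2).trace).re =
      ∑ i ∈ Finset.range n, ∑ j ∈ Finset.range n, ‖Y n i j‖ ^ 2 := by
    intro n
    rw [Finset.sum_range, sq, Matrix.trace, Complex.re_sum]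
    refine Finset.sum_congr rfl fun i _ => ?_
    rw [Matrix.diag_apply, Matrix.mul_apply, Complex.re_sum, Finset.sum_range]
    refine Finset.sum_congr rfl fun j _ => ?_
    rw [hX, hX, hYs n i j, Complex.mul_conj, Complex.ofReal_re, Complex.normSq_eq_norm_sq]
  have hlim : ∀ p : ℕ × ℕ, Tendsto (fun n => ENNReal.ofReal (‖Y n p.1 p.2‖ ^ 2)) atTop
      (𝓝 (ENNReal.ofReal (‖(inner ℂ (M (b p.1)) (M (b p.2)) : ℂ)‖ ^ 2))) := by
    intro p
    exact (ENNReal.continuous_ofReal.tendsto _).comp (((hY p.1 p.2).norm).pow 2)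
  have hfat : ∀ s : Finset (ℕ × ℕ),
      ∑ p ∈ s, ENNReal.ofReal (‖(inner ℂ (M (b p.1)) (M (b p.2)) : ℂ)‖ ^ 2) ≤
      Filter.liminf (fun n => ENNReal.ofReal
        ((((corner b M n)ᴴ * corner b M n) ^ 2).trace).re) Filter.atTop := by
    intro s
    have h1 : Tendsto (fun n => ∑ p ∈ s, ENNReal.ofReal (‖Y n p.1 p.2‖ ^ 2)) atTop
        (𝓝 (∑ p ∈ s, ENNReal.ofReal (‖(inner ℂ (M (b p.1)) (M (b p.2)) : ℂ)‖ ^ 2))) :=
      tendsto_finsetSum _ fun p _ => hlim p
    rw [← h1.liminf_eq]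
    refine liminf_le_liminf ?_
    · have h2 : ∀ᶠ n : ℕ in atTop, ∀ p ∈ s, p.1 < n ∧ p.2 < n := by
        rw [Finset.eventually_all]
        intro p _
        exact (eventually_gt_atTop p.1).and (eventually_gt_atTop p.2)
      filter_upwards [h2] with n hn
      rw [htr n, ← Finset.sum_product', ENNReal.ofReal_sum_of_nonneg (fun _ _ => by positivity)]
      apply Finset.sum_le_sum_of_subset
      intro p hp
      rw [Finset.mem_product, Finset.mem_range, Finset.mem_range]
      exact hn p hp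
  have hpars : ∀ i, ENNReal.ofReal (‖(ContinuousLinearMap.adjoint M) (M (b i))‖ ^ 2) =
      ∑' j, ENNReal.ofReal (‖(inner ℂ (M (b i)) (M (b j)) : ℂ)‖ ^ 2) := by
    intro i
    set x := (ContinuousLinearMap.adjoint M) (M (b i)) with hx
    have h1 := b.hasSum_inner_mul_inner x x
    have h2 : ∀ j, inner ℂ x (b j) * inner ℂ (b j) x =
        ((‖(inner ℂ (M (b i)) (M (b j)) : ℂ)‖ ^ 2 : ℝ) : ℂ) := by
      intro j
      have e1 : inner ℂ x (b j) = inner ℂ (M (b i)) (M (b j)) := by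
        rw [hx, ContinuousLinearMap.adjoint_inner_left]
      rw [← inner_conj_symm (b j) x, e1, Complex.mul_conj, Complex.normSq_eq_norm_sq]
    simp only [h2] at h1
    have h3 : inner ℂ x x = ((‖x‖ ^ 2 : ℝ) : ℂ) := by
      rw [inner_self_eq_norm_sq_to_K]
      norm_cast
    rw [h3] at h1
    have h4 : HasSum (fun j => ‖(inner ℂ (M (b i)) (M (b j)) : ℂ)‖ ^ 2) (‖x‖ ^ 2) := by
      exact_mod_cast h1
    rw [← h4.tsum_eq]
    exact ENNReal.ofReal_tsum_of_nonneg (fun _ => by positivity) h4.summable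
  simp only [hpars]
  rw [← ENNReal.tsum_prod, ENNReal.tsum_eq_iSup_sum]
  exact iSup_le hfat

end Pool.Agent.R260.SC
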