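import Pool.Agent.R260.SC.Defs2

/-!
# LC: limits of sums of squares with Lorentz trace zero
-/

set_option autoImplicit false

open MeasureTheory Matrix Filter Topology

namespace Pool.Agent.R260.SC

namespace LCAux

/-- the Gram matrix -/
def Gr {m : ℕ} (v : Fin m → Fin 4 → ℝ) (j k : Fin 4) : ℝ := ∑ i, v i j * v i k

theorem quad {m : ℕ} (v : Fin m → Fin 4 → ℝ) (a : Fin 4 → ℝ) :
    ∑ i, (∑ j, a j * v i j) ^ 2 = ∑ j, ∑ k, a j * a k * Gr v j k := by
  unfold Gr
  have e : ∀ i, (∑ j, a j * v i j) ^ 2 = ∑ j, ∑ k, a j * a k * (v i j * v i k) := by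
    intro i
    rw [sq, Finset.sum_mul_sum]
    refine Finset.sum_congr rfl fun j _ => Finset.sum_congr rfl fun k _ => ?_
    ring
  simp only [e]
  rw [Finset.sum_comm]
  refine Finset.sum_congr rfl fun j _ => ?_
  rw [Finset.sum_comm]
  refine Finset.sum_congr rfl fun k _ => ?_
  rw [Finset.mul_sum]

theorem lor_sum {m : ℕ} (v : Fin m → Fin 4 → ℝ) :
    ∑ i, lor (v i) = Gr v 0 0 - Gr v 1 1 - Gr v 2 2 - Gr v 3 3 := by
  unfold Gr lor
  simp only [Finset.sum_sub_distrib, sq]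

theorem Gr_symm {m : ℕ} (v : Fin m → Fin 4 → ℝ) (j k : Fin 4) : Gr v j k = Gr v k j :=
  Finset.sum_congr rfl fun _ _ => mul_comm _ _

theorem Gr_diag {m : ℕ} (v : Fin m → Fin 4 → ℝ) (j : Fin 4) : 0 ≤ Gr v j j :=
  Finset.sum_nonneg fun _ _ => mul_self_nonneg _

theorem Gr_abs {m : ℕ} (v : Fin m → Fin 4 → ℝ) (j k : Fin 4) :
    |Gr v j k| ≤ (Gr v j j + Gr v k k) / 2 := by
  unfold Gr
  rw [← Finset.sum_add_distrib, Finset.sum_div]
  refine (Finset.abs_sum_le_sum_abs _ _).trans (Finset.sum_le_sum fun i _ => ?_)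
  rw [abs_mul]
  have h1 := abs_mul_abs_self (v i j)
  have h2 := abs_mul_abs_self (v i k)
  nlinarith [sq_nonneg (|v i j| - |v i k|)]

theorem nv10 : nv 1 0 = ![1, 1, 0, 0] := by
  unfold nv
  simp

theorem nv01 : nv 0 1 = ![1, -1, 0, 0] := by
  unfold nv
  simp

theorem Gr_le {m : ℕ} (v : Fin m → Fin 4 → ℝ) (hl : ∑ i, lor (v i) = 0) {C : ℝ}
    (h1 : ∑ i, (∑ j, nv 1 0 j * v i j) ^ 2 ≤ C) (h2 : ∑ i, (∑ j, nv 0 1 j * v i j) ^ 2 ≤ C)
    (j k : Fin 4) : Gr v j k ∈ Set.Icc (-C) C := by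
  rw [quad, nv10] at h1
  rw [quad, nv01] at h2
  simp only [Fin.sum_univ_four, Matrix.cons_val_zero, Matrix.cons_val_one, Matrix.cons_val] at h1 h2
  have h3 := lor_sum v
  rw [hl] at h3
  have d0 := Gr_diag v 0
  have d1 := Gr_diag v 1
  have d2 := Gr_diag v 2
  have d3 := Gr_diag v 3
  have hd : ∀ j, Gr v j j ≤ C := by
    intro j
    fin_cases j
    · change Gr v 0 0 ≤ C
      linarith
    · change Gr v 1 1 ≤ C
      linarith
    · change Gr v 2 2 ≤ C
      linarith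
    · change Gr v 3 3 ≤ C
      linarith
  have h4 := Gr_abs v j k
  have h5 := hd j
  have h6 := hd k
  have h7 := abs_le.1 h4
  exact ⟨by linarith [h7.1], by linarith [h7.2]⟩

end LCAux

open LCAux

theorem lc : S_LC := by
  intro N C hN hC
  choose m v hv hNv using hN
  have hmem : ∀ n, (fun j k => Gr (v n) j k) ∈
      Set.pi Set.univ fun _ : Fin 4 => Set.pi Set.univ fun _ : Fin 4 => Set.Icc (-C) C := by
    intro n j _ k _
    obtain ⟨h1, h2⟩ := hC n
    rw [hNv] at h1 h2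
    exact Gr_le (v n) (hv n) h1 h2 j k
  have hcpt : IsCompact (Set.pi Set.univ fun _ : Fin 4 => Set.pi Set.univ fun _ : Fin 4 =>
      Set.Icc (-C) C) := isCompact_univ_pi fun _ => isCompact_univ_pi fun _ => isCompact_Icc
  obtain ⟨Γ, -, φ, hφ, hlim⟩ := hcpt.tendsto_subseq hmem
  have hent : ∀ j k, Tendsto (fun n => Gr (v (φ n)) j k) atTop (𝓝 (Γ j k)) := by
    intro j k
    have h1 := (tendsto_pi_nhds.1 hlim) j
    exact (tendsto_pi_nhds.1 h1) k
  have hquad : ∀ a : Fin 4 → ℝ, Tendsto (fun n => ∑ j, ∑ k, a j * a k * Gr (v (φ n)) j k) atTop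
      (𝓝 (∑ j, ∑ k, a j * a k * Γ j k)) := by
    intro a
    exact tendsto_finsetSum _ fun j _ => tendsto_finsetSum _ fun k _ =>
      (hent j k).const_mul _
  have hsymm : ∀ j k, Γ j k = Γ k j := by
    intro j k
    refine tendsto_nhds_unique (hent j k) ?_
    exact (hent k j).congr fun n => Gr_symm _ _ _
  have hpsd : (Matrix.of Γ).PosSemidef := by
    refine Matrix.PosSemidef.of_dotProduct_mulVec_nonneg ?_ fun x => ?_
    · ext j k
      simp [hsymm j k]
    · have h1 : 0 ≤ ∑ j, ∑ k, x j * x k * Γ j k := by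
        refine ge_of_tendsto (hquad x) (Eventually.of_forall fun n => ?_)
        rw [← quad]
        positivity
      have h2 : star x ⬝ᵥ Matrix.of Γ *ᵥ x = ∑ j, ∑ k, x j * x k * Γ j k := by
        simp only [dotProduct, mulVec, Matrix.of_apply, Pi.star_apply, star_trivial,
          Finset.mul_sum]
        refine Finset.sum_congr rfl fun j _ => Finset.sum_congr rfl fun k _ => ?_
        ring
      rw [h2]
      exact h1
  obtain ⟨m', B, hB⟩ := Matrix.posSemidef_iff_eq_sum_vecMulVec.1 hpsd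
  have hG : ∀ j k, Gr B j k = Γ j k := by
    intro j k
    have h1 := congrFun (congrFun hB j) k
    rw [Matrix.of_apply, Matrix.sum_apply] at h1
    rw [h1]
    unfold Gr
    refine Finset.sum_congr rfl fun i _ => ?_
    simp [Matrix.vecMulVec_apply]
  refine ⟨m', B, ?_, φ, hφ, fun α β => ?_⟩
  · rw [lor_sum, hG, hG, hG, hG]
    have h1 : Tendsto (fun n => Gr (v (φ n)) 0 0 - Gr (v (φ n)) 1 1 - Gr (v (φ n)) 2 2 -
        Gr (v (φ n)) 3 3) atTop (𝓝 (Γ 0 0 - Γ 1 1 - Γ 2 2 - Γ 3 3)) :=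
      (((hent 0 0).sub (hent 1 1)).sub (hent 2 2)).sub (hent 3 3)
    refine tendsto_nhds_unique h1 ?_
    refine tendsto_const_nhds.congr fun n => ?_
    rw [← lor_sum, hv]
  · rw [quad]
    simp only [hG]
    refine (hquad (nv α β)).congr fun n => ?_
    rw [hNv, quad]

end Pool.Agent.R260.SC
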