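import Pool.Agent.R260.SC.Defs

/-!
# Null vectors and simple functions
-/

set_option autoImplicit false

open MeasureTheory Matrix

namespace Pool.Agent.R260.SC.NUSF

open Pool.Agent.R260.SC

theorem nu_pos (u : Fin 4 → ℝ) (hu : lor u = 0) (h0 : 0 ≤ u 0) : ∃ f g : ℂ, ∀ α β : ℂ,
    ∑ j, nv α β j * u j = ‖α * f + β * g‖ ^ 2 := by
  unfold lor at hu
  have key : ∀ (s p q : ℝ), s * s = u 0 + u 1 → s * p = u 2 → s * q = - u 3 →
      p * p + q * q = u 0 - u 1 → ∃ f g : ℂ, ∀ α β : ℂ,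
      ∑ j, nv α β j * u j = ‖α * f + β * g‖ ^ 2 := by
    intro s p q h1 h2 h3 h4
    refine ⟨⟨s, 0⟩, ⟨p, q⟩, ?_⟩
    intro α β
    rw [Complex.sq_norm, Complex.normSq_apply]
    have hα : ‖α‖ ^ 2 = α.re * α.re + α.im * α.im := by
      rw [Complex.sq_norm, Complex.normSq_apply]
    have hβ : ‖β‖ ^ 2 = β.re * β.re + β.im * β.im := by
      rw [Complex.sq_norm, Complex.normSq_apply]
    simp only [Fin.sum_univ_four, nv, hα, hβ, Matrix.cons_val_zero, Matrix.cons_val_one,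
      Matrix.cons_val, Complex.add_re, Complex.add_im, Complex.mul_re, Complex.mul_im,
      Complex.star_def, Complex.conj_re, Complex.conj_im]
    linear_combination (-(α.re * α.re + α.im * α.im)) * h1 -
      (β.re * β.re + β.im * β.im) * h4 -
      2 * (α.re * β.re + α.im * β.im) * h2 + 2 * (α.re * β.im - α.im * β.re) * h3
  rcases lt_or_ge 0 (u 0 + u 1) with h | h
  · have hs : √(u 0 + u 1) * √(u 0 + u 1) = u 0 + u 1 := Real.mul_self_sqrt h.le
    have hs0 : √(u 0 + u 1) ≠ 0 := by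
      rw [Ne, Real.sqrt_eq_zero']
      exact not_le.2 h
    refine key (√(u 0 + u 1)) (u 2 / √(u 0 + u 1)) (- u 3 / √(u 0 + u 1)) hs ?_ ?_ ?_
    · field_simp
    · field_simp
    · have : u 2 / √(u 0 + u 1) * (u 2 / √(u 0 + u 1)) +
          -u 3 / √(u 0 + u 1) * (-u 3 / √(u 0 + u 1)) =
          (u 2 ^ 2 + u 3 ^ 2) / (√(u 0 + u 1) * √(u 0 + u 1)) := by
        field_simp
      rw [this, hs, div_eq_iff h.ne']
      linarith
  · have h1 : u 1 ^ 2 ≤ u 0 ^ 2 := by nlinarith [sq_nonneg (u 2), sq_nonneg (u 3)]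
    have h2 : |u 1| ≤ u 0 := abs_le_of_sq_le_sq h1 h0
    have h3 : -u 0 ≤ u 1 := (abs_le.1 h2).1
    have h4 : u 0 + u 1 = 0 := le_antisymm h (by linarith)
    have h5 : u 2 ^ 2 + u 3 ^ 2 = 0 := by
      have : u 1 = - u 0 := by linarith
      rw [this] at hu
      linarith
    have h6 : u 2 = 0 := by
      have : u 2 ^ 2 = 0 := by nlinarith [sq_nonneg (u 2), sq_nonneg (u 3)]
      exact pow_eq_zero_iff (two_ne_zero) |>.1 this
    have h7 : u 3 = 0 := by
      have : u 3 ^ 2 = 0 := by nlinarith [sq_nonneg (u 2), sq_nonneg (u 3)]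
      exact pow_eq_zero_iff (two_ne_zero) |>.1 this
    refine key 0 (√(u 0 - u 1)) 0 ?_ ?_ ?_ ?_
    · rw [h4]; ring
    · rw [h6]; ring
    · rw [h7]; ring
    · rw [Real.mul_self_sqrt (by linarith)]
      ring

theorem nu : S_NU := by
  intro u hu
  rcases le_total 0 (u 0) with h | h
  · obtain ⟨f, g, hfg⟩ := nu_pos u hu h
    refine ⟨f, g, ?_⟩
    intro α β
    rw [hfg α β, ← pow_mul]
  · obtain ⟨f, g, hfg⟩ := nu_pos (fun j => - u j) (by unfold lor at hu ⊢; linarith)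
      (by simpa using h)
    refine ⟨f, g, ?_⟩
    intro α β
    have h1 := hfg α β
    have h2 : ∑ j, nv α β j * -u j = -∑ j, nv α β j * u j := by
      rw [← Finset.sum_neg_distrib]
      apply Finset.sum_congr rfl
      intro j _
      ring
    rw [h2] at h1
    have h3 : (∑ j, nv α β j * u j) ^ 2 = (-∑ j, nv α β j * u j) ^ 2 := by ring
    rw [h3, h1, ← pow_mul]

/-- the integral of a step function -/
theorem int_floor (m : ℕ) (hm : 0 < m) (φ : ℕ → ℝ) :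
    ∫ t in Set.Ioo (0:ℝ) 1, φ ⌊(m : ℝ) * t⌋₊ = (∑ i ∈ Finset.range m, φ i) / m := by
  have hm' : (m : ℝ) ≠ 0 := by positivity
  have hloc : ∀ (i : ℕ), Set.EqOn (fun s : ℝ => φ ⌊s⌋₊) (fun _ => φ i)
      (Set.Ioo (i : ℝ) ((i + 1 : ℕ) : ℝ)) := by
    intro i s hs
    have : ⌊s⌋₊ = i := by
      rw [Nat.floor_eq_iff (le_trans (Nat.cast_nonneg i) hs.1.le)]
      refine ⟨hs.1.le, ?_⟩
      have := hs.2
      push_cast at this
      exact this
    simp only [this]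
  have hle : ∀ i : ℕ, (i : ℝ) ≤ ((i + 1 : ℕ) : ℝ) := fun i => by push_cast; linarith
  have hint : ∀ i : ℕ, IntervalIntegrable (fun s : ℝ => φ ⌊s⌋₊) volume (i : ℝ)
      ((i + 1 : ℕ) : ℝ) := by
    intro i
    rw [intervalIntegrable_iff_integrableOn_Ioo_of_le (hle i)]
    refine IntegrableOn.congr_fun ?_ (hloc i).symm measurableSet_Ioo
    exact integrableOn_const (by simp)
  have hval : ∀ i : ℕ, ∫ s in (i : ℝ)..((i + 1 : ℕ) : ℝ), φ ⌊s⌋₊ = φ i := by
    intro i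
    rw [intervalIntegral.integral_of_le (hle i), integral_Ioc_eq_integral_Ioo,
      setIntegral_congr_fun measurableSet_Ioo (hloc i), setIntegral_const]
    simp
  have h1 : ∫ s in ((0 : ℕ) : ℝ)..(m : ℝ), φ ⌊s⌋₊ = ∑ i ∈ Finset.range m, φ i := by
    rw [← intervalIntegral.sum_integral_adjacent_intervals (a := fun k : ℕ => (k : ℝ))
      (fun k _ => hint k)]
    exact Finset.sum_congr rfl (fun i _ => hval i)
  have h2 : ∫ t in (0:ℝ)..1, φ ⌊(m : ℝ) * t⌋₊ = (m : ℝ)⁻¹ • ∫ s in (m : ℝ) * 0..(m : ℝ) * 1,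
      φ ⌊s⌋₊ := intervalIntegral.integral_comp_mul_left (fun s => φ ⌊s⌋₊) hm'
  rw [← integral_Ioc_eq_integral_Ioo, ← intervalIntegral.integral_of_le zero_le_one, h2, mul_zero,
    mul_one]
  rw [Nat.cast_zero] at h1
  rw [h1, smul_eq_mul]
  ring

/-- the step function -/
noncomputable def stp (m : ℕ) (f : Fin m → ℂ) (n : ℕ) : ℂ :=
  if h : n < m then (((m : ℝ) ^ (1 / 4 : ℝ) : ℝ) : ℂ) * f ⟨n, h⟩ else 0

theorem stp_memLp (m : ℕ) (f : Fin m → ℂ) :
    MemLp (fun t : ℝ => stp m f ⌊(m : ℝ) * t⌋₊) 4 (volume.restrict (Set.Ioo (0:ℝ) 1)) := by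
  have : IsFiniteMeasure (volume.restrict (Set.Ioo (0:ℝ) 1)) := ⟨by simp⟩
  refine MemLp.of_bound ?_ (∑ i : Fin m, ‖(((m : ℝ) ^ (1 / 4 : ℝ) : ℝ) : ℂ) * f i‖) ?_
  · apply Measurable.aestronglyMeasurable
    exact (measurable_from_nat (f := stp m f)).comp
      (Nat.measurable_floor.comp (measurable_const_mul (m : ℝ)))
  · refine Filter.Eventually.of_forall ?_
    intro t
    unfold stp
    split_ifs with h
    · exact Finset.single_le_sum
        (f := fun i : Fin m => ‖(((m : ℝ) ^ (1 / 4 : ℝ) : ℝ) : ℂ) * f i‖)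
        (fun i _ => norm_nonneg _) (Finset.mem_univ (⟨_, h⟩ : Fin m))
    · rw [norm_zero]
      exact Finset.sum_nonneg (fun i _ => norm_nonneg _)

theorem sf : S_SF := by
  intro m f g
  refine ⟨fun t => stp m f ⌊(m : ℝ) * t⌋₊, fun t => stp m g ⌊(m : ℝ) * t⌋₊, stp_memLp m f,
    stp_memLp m g, ?_⟩
  intro α β
  rcases Nat.eq_zero_or_pos m with rfl | hm
  · simp [stp]
  have hm' : (0 : ℝ) < m := by exact_mod_cast hm
  have hc : ((m : ℝ) ^ (1 / 4 : ℝ)) ^ 4 = m := by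
    rw [← Real.rpow_natCast, ← Real.rpow_mul hm'.le]
    norm_num
  have hc0 : 0 ≤ (m : ℝ) ^ (1 / 4 : ℝ) := by positivity
  have h1 : ∀ z : ℝ, z ^ (4 : ℝ) = z ^ 4 := by
    intro z
    rw [← Real.rpow_natCast]
    norm_num
  simp only [h1]
  rw [int_floor m hm (fun n => ‖α * stp m f n + β * stp m g n‖ ^ 4)]
  rw [Finset.sum_range, Finset.sum_div]
  apply Finset.sum_congr rfl
  intro i _
  have h2 : α * stp m f i + β * stp m g i =
      (((m : ℝ) ^ (1 / 4 : ℝ) : ℝ) : ℂ) * (α * f i + β * g i) := by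
    unfold stp
    rw [dif_pos i.2, dif_pos i.2]
    simp only [Fin.eta]
    ring
  rw [h2, norm_mul, Complex.norm_real, Real.norm_eq_abs, abs_of_nonneg hc0, mul_pow, hc]
  field_simp

end Pool.Agent.R260.SC.NUSF
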