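import Pool.Agent.R260.SC.Defs

set_option autoImplicit false

namespace Pool.Agent.R260.SC
namespace SZaux

lemma sum_upd {m : ℕ} (f : Fin m → ℝ) (i : Fin m) (b : ℝ) :
    ∑ k, Function.update f i b k = ∑ k, f k - f i + b := by
  have h1 := Finset.sum_update_of_mem (Finset.mem_univ i) f b
  have h2 := Finset.sum_update_of_mem (Finset.mem_univ i) f (f i)
  rw [Function.update_eq_self] at h2
  linarith

lemma sum_upd2 {m : ℕ} {α : Type} (F : α → ℝ) (v : Fin m → α) (i j : Fin m) (hij : i ≠ j)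
    (x y : α) :
    ∑ k, F (Function.update (Function.update v i x) j y k) =
      ∑ k, F (v k) - F (v i) - F (v j) + F x + F y := by
  have h : ∀ k, F (Function.update (Function.update v i x) j y k) =
      Function.update (Function.update (fun k => F (v k)) i (F x)) j (F y) k := by
    intro k
    by_cases h1 : k = j
    · subst h1; simp
    · by_cases h2 : k = i
      · subst h2; simp [h1]
      · simp [h1, h2]
  rw [Finset.sum_congr rfl (fun k _ => h k), sum_upd, sum_upd, Function.update_of_ne hij.symm]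
  ring

lemma exists_root (A B C : ℝ) (hA : 0 < A) (hC : C < 0) :
    ∃ t : ℝ, A + 2 * t * B + t ^ 2 * C = 0 := by
  have hD : 0 ≤ B ^ 2 - A * C := by nlinarith [mul_pos hA (neg_pos.2 hC), sq_nonneg B]
  refine ⟨(-B + √(B ^ 2 - A * C)) / C, ?_⟩
  have hs := Real.sq_sqrt hD
  have hC0 : C ≠ 0 := hC.ne
  have h1 : A + 2 * ((-B + √(B ^ 2 - A * C)) / C) * B + ((-B + √(B ^ 2 - A * C)) / C) ^ 2 * C =
      (A * C - B ^ 2 + √(B ^ 2 - A * C) ^ 2) / C := by
    field_simp
    ring
  rw [h1, hs]
  simp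

theorem sz_aux (m : ℕ) : ∀ (N : ℕ) (v : Fin m → Fin 4 → ℝ),
    (Finset.univ.filter (fun i => lor (v i) ≠ 0)).card ≤ N → ∑ i, lor (v i) = 0 →
    ∃ u : Fin m → Fin 4 → ℝ, (∀ i, lor (u i) = 0) ∧
      ∀ a : Fin 4 → ℝ, ∑ i, (∑ j, a j * u i j) ^ 2 = ∑ i, (∑ j, a j * v i j) ^ 2 := by
  intro N
  induction N with
  | zero =>
    intro v h _
    refine ⟨v, fun i => ?_, fun _ => rfl⟩
    by_contra hi
    have hmem : i ∈ Finset.univ.filter (fun i => lor (v i) ≠ 0) :=
      Finset.mem_filter.2 ⟨Finset.mem_univ i, hi⟩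
    have := Finset.card_pos.2 ⟨i, hmem⟩
    omega
  | succ N ih =>
    intro v h h0
    by_cases hall : ∀ i, lor (v i) = 0
    · exact ⟨v, hall, fun _ => rfl⟩
    push Not at hall
    obtain ⟨k, hk⟩ := hall
    obtain ⟨i, -, hi⟩ := Finset.exists_pos_of_sum_zero_of_exists_nonzero (fun i => lor (v i)) h0
      ⟨k, Finset.mem_univ k, hk⟩
    obtain ⟨j, -, hj⟩ := Finset.exists_pos_of_sum_zero_of_exists_nonzero (fun i => -lor (v i))
      (by rw [Finset.sum_neg_distrib, h0, neg_zero]) ⟨k, Finset.mem_univ k, neg_ne_zero.2 hk⟩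
    have hij : i ≠ j := by rintro rfl; linarith
    obtain ⟨t, ht⟩ := exists_root (lor (v i))
      (v i 0 * v j 0 - v i 1 * v j 1 - v i 2 * v j 2 - v i 3 * v j 3) (lor (v j)) hi (by linarith)
    set c : ℝ := (√(1 + t ^ 2))⁻¹ with hcdef
    have hc : c ^ 2 * (1 + t ^ 2) = 1 := by
      have h1 : (0:ℝ) < 1 + t ^ 2 := by positivity
      rw [hcdef, inv_pow, Real.sq_sqrt h1.le, inv_mul_cancel₀ h1.ne']
    set x : Fin 4 → ℝ := fun k => c * (v i k + t * v j k) with hxd
    set y : Fin 4 → ℝ := fun k => c * (v j k - t * v i k) with hyd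
    have hx : lor x = 0 := by
      have h1 : lor x = c ^ 2 * (lor (v i) + 2 * t *
          (v i 0 * v j 0 - v i 1 * v j 1 - v i 2 * v j 2 - v i 3 * v j 3) +
          t ^ 2 * lor (v j)) := by
        simp only [lor, hxd]; ring
      rw [h1, ht, mul_zero]
    have hxy : lor x + lor y = lor (v i) + lor (v j) := by
      have h1 : lor x + lor y = c ^ 2 * (1 + t ^ 2) * (lor (v i) + lor (v j)) := by
        simp only [lor, hxd, hyd]; ring
      rw [h1, hc, one_mul]
    set w : Fin m → Fin 4 → ℝ := Function.update (Function.update v i x) j y with hw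
    have hwj : w j = y := by rw [hw, Function.update_self]
    have hwi : w i = x := by rw [hw, Function.update_of_ne hij, Function.update_self]
    have hwk : ∀ k, k ≠ i → k ≠ j → w k = v k := by
      intro k h1 h2
      rw [hw, Function.update_of_ne h2, Function.update_of_ne h1]
    have hsum : ∑ i, lor (w i) = 0 := by
      rw [hw, sum_upd2 lor v i j hij x y, h0]
      linarith
    have hcard : (Finset.univ.filter (fun i => lor (w i) ≠ 0)).card ≤ N := by
      have h1 : (Finset.univ.filter (fun i => lor (w i) ≠ 0)).card <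
          (Finset.univ.filter (fun i => lor (v i) ≠ 0)).card := by
        apply Finset.card_lt_card
        rw [Finset.ssubset_iff_of_subset]
        · refine ⟨i, Finset.mem_filter.2 ⟨Finset.mem_univ i, hi.ne'⟩, ?_⟩
          rw [Finset.mem_filter]
          rintro ⟨_, h2⟩
          exact h2 (by rw [hwi, hx])
        · intro k hk2
          rw [Finset.mem_filter] at hk2 ⊢
          refine ⟨Finset.mem_univ k, ?_⟩
          by_cases h3 : k = i
          · subst h3; exact hi.ne'
          · by_cases h4 : k = j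
            · subst h4; intro h5; rw [h5] at hj; simp at hj
            · rw [hwk k h3 h4] at hk2; exact hk2.2
      omega
    obtain ⟨u, hu, hu2⟩ := ih w hcard hsum
    refine ⟨u, hu, fun a => ?_⟩
    rw [hu2 a, hw, sum_upd2 (fun z : Fin 4 → ℝ => (∑ j, a j * z j) ^ 2) v i j hij x y]
    have h1 : (∑ l, a l * x l) ^ 2 + (∑ l, a l * y l) ^ 2 =
        (∑ l, a l * v i l) ^ 2 + (∑ l, a l * v j l) ^ 2 := by
      have h2 : (∑ l, a l * x l) ^ 2 + (∑ l, a l * y l) ^ 2 =
          c ^ 2 * (1 + t ^ 2) * ((∑ l, a l * v i l) ^ 2 + (∑ l, a l * v j l) ^ 2) := by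
        simp only [hxd, hyd, Fin.sum_univ_four]; ring
      rw [h2, hc, one_mul]
    linarith

end SZaux

theorem sz : S_SZ := by
  intro m v h
  obtain ⟨u, h1, h2⟩ := SZaux.sz_aux m _ v le_rfl h
  exact ⟨m, u, h1, h2⟩

end Pool.Agent.R260.SC
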