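import Pool.Agent.R260.SC.GR
import Pool.Agent.R260.SC.SZ
import Pool.Agent.R260.SC.NUSF
import Pool.Agent.R260.SC.IU
import Pool.Agent.R260.SC.IW
import Pool.Agent.R260.SC.LC

set_option autoImplicit false

open MeasureTheory Matrix Filter Topology

namespace Pool.Agent.R260.SC

variable {H : Type*} [NormedAddCommGroup H] [InnerProductSpace ℂ H] [CompleteSpace H]

theorem il (b : HilbertBasis ℕ ℂ H) (M : H →L[ℂ] H) :
    Tendsto (fun n => ENNReal.ofReal ((((corner b M n)ᴴ * corner b M n) ^ 2).trace).re) atTop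
      (𝓝 (∑' i, ENNReal.ofReal (‖(ContinuousLinearMap.adjoint M) (M (b i))‖ ^ 2))) := by
  apply tendsto_of_le_liminf_of_limsup_le (iw b M)
  apply Filter.limsup_le_of_le
  · isBoundedDefault
  · exact Filter.Eventually.of_forall (fun n => iu b M n)

theorem corner_lin (b : HilbertBasis ℕ ℂ H) (A B : H →L[ℂ] H) (n : ℕ) (α β : ℂ) :
    corner b (α • A + β • B) n = α • corner b A n + β • corner b B n := by
  ext i j
  simp [corner, inner_add_right, inner_smul_right]

theorem four_yes (b : HilbertBasis ℕ ℂ H) (A B : H →L[ℂ] H)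
    (hA : Summable (fun i => ‖(ContinuousLinearMap.adjoint A) (A (b i))‖ ^ 2))
    (hB : Summable (fun i => ‖(ContinuousLinearMap.adjoint B) (B (b i))‖ ^ 2)) :
    ∃ f g : ℝ → ℂ, MemLp f 4 (volume.restrict (Set.Ioo (0:ℝ) 1)) ∧
      MemLp g 4 (volume.restrict (Set.Ioo (0:ℝ) 1)) ∧
      ∀ α β : ℂ, HasSum (fun i => ‖(ContinuousLinearMap.adjoint (α • A + β • B))
          ((α • A + β • B) (b i))‖ ^ 2)
        (∫ t in Set.Ioo (0:ℝ) 1, ‖α * f t + β * g t‖ ^ (4:ℝ)) := by
  set N : ℕ → ℂ → ℂ → ℝ := fun n α β =>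
    ((((corner b (α • A + β • B) n)ᴴ * corner b (α • A + β • B) n) ^ 2).trace).re with hN
  have h1 : ∀ n, ∃ (m : ℕ) (v : Fin m → Fin 4 → ℝ), ∑ i, lor (v i) = 0 ∧
      ∀ α β : ℂ, N n α β = ∑ i, (∑ j, nv α β j * v i j) ^ 2 := by
    intro n
    obtain ⟨m, v, hv, h⟩ := gr n (corner b A n) (corner b B n)
    refine ⟨m, v, hv, fun α β => ?_⟩
    have := h α β
    rw [← corner_lin] at this
    rw [hN]
    simp only
    rw [this, Complex.ofReal_re]
  -- bounds
  have hbd : ∀ (M : H →L[ℂ] H),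
      Summable (fun i => ‖(ContinuousLinearMap.adjoint M) (M (b i))‖ ^ 2) → ∀ n,
      ((((corner b M n)ᴴ * corner b M n) ^ 2).trace).re ≤
        ∑' i, ‖(ContinuousLinearMap.adjoint M) (M (b i))‖ ^ 2 := by
    intro M hM n
    have h := iu b M n
    rw [← ENNReal.ofReal_tsum_of_nonneg (fun _ => by positivity) hM] at h
    exact (ENNReal.ofReal_le_ofReal_iff (tsum_nonneg fun _ => by positivity)).mp h
  have h2 : ∀ n, N n 1 0 ≤ max (∑' i, ‖(ContinuousLinearMap.adjoint A) (A (b i))‖ ^ 2)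
        (∑' i, ‖(ContinuousLinearMap.adjoint B) (B (b i))‖ ^ 2) ∧
      N n 0 1 ≤ max (∑' i, ‖(ContinuousLinearMap.adjoint A) (A (b i))‖ ^ 2)
        (∑' i, ‖(ContinuousLinearMap.adjoint B) (B (b i))‖ ^ 2) := by
    intro n
    constructor
    · apply le_max_of_le_left
      have := hbd A hA n
      rw [hN]
      simpa only [one_smul, zero_smul, add_zero] using this
    · apply le_max_of_le_right
      have := hbd B hB n
      rw [hN]
      simpa only [one_smul, zero_smul, zero_add] using this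
  obtain ⟨m, v, hv, φ, hφ, hlim⟩ := lc N _ h1 h2
  obtain ⟨m', u, hu, hsum⟩ := sz m v hv
  choose f g hfg using fun i => NUSF.nu (u i) (hu i)
  obtain ⟨F, G, hF, hG, hint⟩ := NUSF.sf m' f g
  refine ⟨F, G, hF, hG, fun α β => ?_⟩
  have e1 : ∫ t in Set.Ioo (0:ℝ) 1, ‖α * F t + β * G t‖ ^ (4:ℝ) =
      ∑ i, (∑ j, nv α β j * v i j) ^ 2 := by
    rw [hint, ← hsum]
    exact Finset.sum_congr rfl (fun i _ => (hfg i α β).symm)
  rw [e1]
  set L : ℝ := ∑ i, (∑ j, nv α β j * v i j) ^ 2 with hL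
  have hL0 : 0 ≤ L := Finset.sum_nonneg fun _ _ => sq_nonneg _
  have e2 : ∑' i, ENNReal.ofReal (‖(ContinuousLinearMap.adjoint (α • A + β • B))
      ((α • A + β • B) (b i))‖ ^ 2) = ENNReal.ofReal L := by
    have t1 := (il b (α • A + β • B)).comp hφ.tendsto_atTop
    have t2 := ENNReal.tendsto_ofReal (hlim α β)
    exact tendsto_nhds_unique t1 t2
  have hs : Summable (fun i => ‖(ContinuousLinearMap.adjoint (α • A + β • B))
      ((α • A + β • B) (b i))‖ ^ 2) := by
    have := ENNReal.summable_toReal (e2 ▸ ENNReal.ofReal_ne_top)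
    refine this.congr (fun i => ?_)
    rw [ENNReal.toReal_ofReal (by positivity)]
  rw [← ENNReal.ofReal_tsum_of_nonneg (fun _ => by positivity) hs,
    ENNReal.ofReal_eq_ofReal_iff (tsum_nonneg fun _ => by positivity) hL0] at e2
  rw [← e2]
  exact hs.hasSum

end Pool.Agent.R260.SC
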