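import Pool.Agent.R260.SC.Defs3

set_option autoImplicit false

open MeasureTheory Matrix Filter Topology

namespace Pool.Agent.R260.SC

lemma pa1_choose (k : ℝ) (i : ℕ) : Ring.choose (k : ℂ) i = (bc k i : ℂ) := by
  rw [Ring.choose_eq_smul]
  induction i with
  | zero => simp [bc]
  | succ i ih =>
    have e : (descPochhammer ℤ (i + 1)).smeval (k : ℂ) =
        (descPochhammer ℤ i).smeval (k : ℂ) * ((k : ℂ) - i) := by
      simp [descPochhammer_succ_right, Polynomial.smeval_mul, Polynomial.smeval_natCast]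
    rw [e]
    simp only [bc]
    push_cast
    rw [← ih, Nat.factorial_succ]
    simp only [smul_eq_mul]
    push_cast
    have h1 : ((i : ℂ) + 1) ≠ 0 := by exact_mod_cast Nat.succ_ne_zero i
    have h2 : ((i.factorial : ℕ) : ℂ) ≠ 0 := by exact_mod_cast Nat.factorial_ne_zero i
    field_simp

theorem pa1 : S_PA1 := by
  intro k
  have h := (Complex.one_add_cpow_hasFPowerSeriesAt_zero (a := (k : ℂ))).isBigO_sub_partialSum_pow 9
  obtain ⟨C, hC⟩ := h.bound
  obtain ⟨δ, hδ, hb⟩ := Metric.eventually_nhds_iff.1 hC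
  refine ⟨max C 0, δ / 2, le_max_right _ _, by positivity, ?_⟩
  intro z hz
  have hz' : dist z 0 < δ := by
    rw [dist_zero_right]
    linarith
  have h1 := hb hz'
  have h2 : (binomialSeries ℂ (k : ℂ)).partialSum 9 z =
      ∑ i ∈ Finset.range 9, (bc k i : ℂ) * z ^ i := by
    unfold FormalMultilinearSeries.partialSum
    apply Finset.sum_congr rfl
    intro i _
    rw [← pa1_choose]
    simp [binomialSeries, mul_comm]
  rw [h2] at h1
  simp only [zero_add, norm_pow, norm_norm] at h1
  calc ‖(1 + z) ^ (k : ℂ) - ∑ i ∈ Finset.range 9, (bc k i : ℂ) * z ^ i‖ ≤ C * ‖z‖ ^ 9 := h1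
    _ ≤ max C 0 * ‖z‖ ^ 9 := by
      apply mul_le_mul_of_nonneg_right (le_max_left _ _) (by positivity)

end Pool.Agent.R260.SC
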