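import Pool.Agent.R260.SC.Defs3
import Pool.Agent.R260.SC.CO

set_option autoImplicit false

open MeasureTheory Matrix Filter Topology

namespace Pool.Agent.R260.SC

theorem PA2_sq (A Q : ℂ) (e M : ℝ) (he : ‖A - Q‖ ≤ e) (hM : ‖Q‖ ≤ M) :
    |‖A‖ ^ 2 - ‖Q‖ ^ 2| ≤ e * (2 * M + e) := by
  have h1 : |‖A‖ - ‖Q‖| ≤ e := (abs_norm_sub_norm_le A Q).trans he
  have he0 : 0 ≤ e := (norm_nonneg _).trans he
  have h2 : ‖A‖ ≤ M + e := by
    have := (abs_le.1 h1).2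
    linarith
  have h3 : |‖A‖ ^ 2 - ‖Q‖ ^ 2| = |‖A‖ - ‖Q‖| * (‖A‖ + ‖Q‖) := by
    rw [sq_sub_sq, abs_mul, mul_comm, abs_of_nonneg (by positivity : 0 ≤ ‖A‖ + ‖Q‖)]
  rw [h3]
  have h4 : 0 ≤ ‖A‖ + ‖Q‖ := by positivity
  calc |‖A‖ - ‖Q‖| * (‖A‖ + ‖Q‖) ≤ e * (‖A‖ + ‖Q‖) := mul_le_mul_of_nonneg_right h1 h4
    _ ≤ e * (2 * M + e) := mul_le_mul_of_nonneg_left (by linarith) he0

theorem pa2 (h1 : S_PA1) : S_PA2 := by
  intro k hk
  obtain ⟨C1, δ1, hC1, hδ1, hT⟩ := h1 k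
  set ω : ℂ := Complex.exp (2 * Real.pi * Complex.I / (9 : ℕ)) with hω
  have hprim : IsPrimitiveRoot ω (8 + 1) := Complex.isPrimitiveRoot_exp 9 (by norm_num)
  have hnω : ‖ω‖ = 1 := hprim.norm'_eq_one (by norm_num)
  set M : ℝ := ∑ i ∈ Finset.range 9, |bc k i| with hM
  have hM0 : 0 ≤ M := Finset.sum_nonneg fun i _ => abs_nonneg _
  set S : ℝ := ∑ i ∈ Finset.range 9, bc k i ^ 2 with hS
  have hS0 : 0 ≤ S := Finset.sum_nonneg fun i _ => sq_nonneg _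
  refine ⟨C1 * (2 * M + C1) + S, min δ1 1, fun j => ω ^ j, by positivity, by positivity,
    fun j => by rw [norm_pow, hnω, one_pow], ?_⟩
  intro z hz
  have hz1 : ‖z‖ ≤ δ1 := hz.trans (min_le_left _ _)
  have hz2 : ‖z‖ ≤ 1 := hz.trans (min_le_right _ _)
  have hz0 := norm_nonneg z
  have h9 : ‖z‖ ^ 9 ≤ 1 := pow_le_one₀ hz0 hz2
  have h90 : 0 ≤ ‖z‖ ^ 9 := by positivity
  let Q : ℂ → ℂ := fun w => ∑ i ∈ Finset.range 9, (bc k i : ℂ) * w ^ i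
  have hQ : ∀ j, ‖Q (ω ^ j * z)‖ ≤ M := by
    intro j
    refine (norm_sum_le _ _).trans (Finset.sum_le_sum fun i _ => ?_)
    rw [norm_mul, Complex.norm_real, Real.norm_eq_abs, norm_pow, norm_mul, norm_pow, hnω, one_pow,
      one_mul]
    exact mul_le_of_le_one_right (abs_nonneg _) (pow_le_one₀ hz0 hz2)
  have hj : ∀ j, |‖1 + ω ^ j * z‖ ^ (2 * k) - ‖Q (ω ^ j * z)‖ ^ 2| ≤
      C1 * (2 * M + C1) * ‖z‖ ^ 9 := by
    intro j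
    have hn : ‖ω ^ j * z‖ = ‖z‖ := by rw [norm_mul, norm_pow, hnω, one_pow, one_mul]
    have e1 : ‖1 + ω ^ j * z‖ ^ (2 * k) = ‖(1 + ω ^ j * z) ^ (k : ℂ)‖ ^ 2 := by
      rw [Complex.norm_cpow_real, ← Real.rpow_natCast, ← Real.rpow_mul (norm_nonneg _)]
      congr 1
      push_cast
      ring
    rw [e1]
    have h2 := hT (ω ^ j * z) (by rw [hn]; exact hz1)
    rw [hn] at h2
    refine (PA2_sq _ (Q (ω ^ j * z)) _ M h2 (hQ j)).trans ?_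
    have h3 : C1 * ‖z‖ ^ 9 ≤ C1 := mul_le_of_le_one_right hC1 h9
    calc C1 * ‖z‖ ^ 9 * (2 * M + C1 * ‖z‖ ^ 9) ≤ C1 * ‖z‖ ^ 9 * (2 * M + C1) :=
          mul_le_mul_of_nonneg_left (by linarith) (by positivity)
      _ = C1 * (2 * M + C1) * ‖z‖ ^ 9 := by ring
  have hP : ∑ j ∈ Finset.range 9, ‖Q (ω ^ j * z)‖ ^ 2 =
      9 * ∑ i ∈ Finset.range 9, bc k i ^ 2 * ‖z‖ ^ (2 * i) := by
    have h2 := CO641.parseval 8 hprim (fun i => (bc k i : ℂ) * z ^ i)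
    have e1 : ∀ s, Q (ω ^ s * z) = ∑ j ∈ Finset.range 9, (bc k j : ℂ) * z ^ j * (ω ^ j) ^ s := by
      intro s
      refine Finset.sum_congr rfl fun i _ => ?_
      rw [mul_pow, ← pow_mul, ← pow_mul, mul_comm s i]
      ring
    have e2 : ∀ j, ‖(bc k j : ℂ) * z ^ j‖ ^ 2 = bc k j ^ 2 * ‖z‖ ^ (2 * j) := by
      intro j
      rw [norm_mul, Complex.norm_real, Real.norm_eq_abs, mul_pow, sq_abs, norm_pow, ← pow_mul,
        mul_comm j 2]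
    simp only [e1]
    simp only [e2] at h2
    norm_num at h2
    exact h2
  have hsplit : ∑ i ∈ Finset.range 9, bc k i ^ 2 * ‖z‖ ^ (2 * i) =
      ∑ i ∈ Finset.range 5, bc k i ^ 2 * ‖z‖ ^ (2 * i) +
      ∑ i ∈ Finset.Ico 5 9, bc k i ^ 2 * ‖z‖ ^ (2 * i) := by
    rw [Finset.sum_range_add_sum_Ico _ (by norm_num : 5 ≤ 9)]
  have htail0 : 0 ≤ ∑ i ∈ Finset.Ico 5 9, bc k i ^ 2 * ‖z‖ ^ (2 * i) :=
    Finset.sum_nonneg fun i _ => by positivity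
  have htail : ∑ i ∈ Finset.Ico 5 9, bc k i ^ 2 * ‖z‖ ^ (2 * i) ≤ S * ‖z‖ ^ 9 := by
    calc ∑ i ∈ Finset.Ico 5 9, bc k i ^ 2 * ‖z‖ ^ (2 * i)
        ≤ ∑ i ∈ Finset.Ico 5 9, bc k i ^ 2 * ‖z‖ ^ 9 := by
          refine Finset.sum_le_sum fun i hi => ?_
          rw [Finset.mem_Ico] at hi
          exact mul_le_mul_of_nonneg_left (pow_le_pow_of_le_one hz0 hz2 (by omega)) (sq_nonneg _)
      _ ≤ ∑ i ∈ Finset.range 9, bc k i ^ 2 * ‖z‖ ^ 9 := by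
          refine Finset.sum_le_sum_of_subset_of_nonneg ?_ fun i _ _ => by positivity
          intro i hi
          rw [Finset.mem_Ico] at hi
          exact Finset.mem_range.2 hi.2
      _ = S * ‖z‖ ^ 9 := by rw [← Finset.sum_mul]
  have hsum : |∑ j ∈ Finset.range 9, ‖1 + ω ^ j * z‖ ^ (2 * k) -
      ∑ j ∈ Finset.range 9, ‖Q (ω ^ j * z)‖ ^ 2| ≤ 9 * (C1 * (2 * M + C1) * ‖z‖ ^ 9) := by
    rw [← Finset.sum_sub_distrib]
    refine (Finset.abs_sum_le_sum_abs _ _).trans ?_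
    refine (Finset.sum_le_sum fun j _ => hj j).trans ?_
    rw [Finset.sum_const, Finset.card_range, nsmul_eq_mul]
    norm_num
  rw [hP, hsplit] at hsum
  rw [abs_le] at hsum ⊢
  obtain ⟨h5, h6⟩ := hsum
  constructor <;> linarith

end Pool.Agent.R260.SC
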