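import Pool.Agent.R260.SC.Defs3

/-! PA3: homogeneity, from the local to the global expansion (helper327). -/

set_option autoImplicit false

open MeasureTheory Matrix Filter Topology

namespace Pool.Agent.R260.SC

theorem pa3 (h2 : S_PA2) : S_PA := by
  intro k hk
  obtain ⟨C, δ, ζ, hC, hδ, hζ, h⟩ := h2 k hk
  obtain ⟨δ', hδ'⟩ : ∃ δ' : ℝ, δ' = min δ 1 := ⟨_, rfl⟩
  have hδ'0 : 0 < δ' := by rw [hδ']; exact lt_min hδ one_pos
  obtain ⟨K, hK⟩ : ∃ K : ℝ, K = 1 / δ' := ⟨_, rfl⟩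
  have hK0 : 0 < K := by rw [hK]; positivity
  obtain ⟨S0, hS0⟩ : ∃ S0 : ℝ, S0 = ∑ i ∈ Finset.range 5, bc k i ^ 2 * K ^ (2 * k - 2 * (i : ℝ)) :=
    ⟨_, rfl⟩
  have hS0' : 0 ≤ S0 := by rw [hS0]; exact Finset.sum_nonneg fun i _ => by positivity
  obtain ⟨C1, hC1⟩ : ∃ C1 : ℝ, C1 = (K + 1) ^ (2 * k) + S0 := ⟨_, rfl⟩
  have hK1 : 0 ≤ (K + 1) ^ (2 * k) := by positivity
  have hC1' : 0 ≤ C1 := by rw [hC1]; positivity
  obtain ⟨q, hq⟩ : ∃ q : ℝ, q = min 9 (2 * k) := ⟨_, rfl⟩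
  have hq8 : 8 < q := by rw [hq]; exact lt_min (by norm_num) (by linarith)
  have hq9 : q ≤ 9 := by rw [hq]; exact min_le_left _ _
  have hq2 : q ≤ 2 * k := by rw [hq]; exact min_le_right _ _
  refine ⟨C + C1, q, ζ, by positivity, hq8, hq2, hζ, ?_⟩
  intro F G ρ hρ
  obtain ⟨a, ha⟩ : ∃ a : ℝ, a = ‖F‖ := ⟨_, rfl⟩
  obtain ⟨b, hb⟩ : ∃ b : ℝ, b = ρ * ‖G‖ := ⟨_, rfl⟩
  have ha0 : 0 ≤ a := by rw [ha]; exact norm_nonneg _
  have hb0 : 0 ≤ b := by rw [hb]; positivity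
  have T2 : ρ ^ (2 * k) * ‖G‖ ^ (2 * k) = b ^ (2 * k) := by
    rw [hb]
    exact (Real.mul_rpow hρ.le (norm_nonneg _)).symm
  have T1 : 0 ≤ ρ ^ q * (‖F‖ ^ (2 * k - q) * ‖G‖ ^ q) := by positivity
  have T2' : 0 ≤ b ^ (2 * k) := by positivity
  by_cases hcase : b < δ' * a
  · have hap : 0 < a := by
      rcases ha0.lt_or_eq with h0 | h0
      · exact h0
      · rw [← h0, mul_zero] at hcase
        linarith
    have hF : F ≠ 0 := by
      rw [ha] at hap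
      exact norm_pos_iff.1 hap
    obtain ⟨z, hz⟩ : ∃ z : ℂ, z = ρ * G / F := ⟨_, rfl⟩
    have hzn : ‖z‖ = b / a := by
      rw [hz, norm_div, norm_mul, Complex.norm_real, Real.norm_of_nonneg hρ.le, hb, ha]
    have hz1 : ‖z‖ ≤ δ' := by
      rw [hzn, div_le_iff₀ hap]
      exact hcase.le
    have hzδ : ‖z‖ ≤ δ := hz1.trans (by rw [hδ']; exact min_le_left _ _)
    have hz1' : ‖z‖ ≤ 1 := hz1.trans (by rw [hδ']; exact min_le_right _ _)
    have e1 : ∀ j ∈ Finset.range 9, ‖F + (ρ * ζ j) * G‖ ^ (2 * k) =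
        a ^ (2 * k) * ‖1 + ζ j * z‖ ^ (2 * k) := by
      intro j _
      rw [← Real.mul_rpow ha0 (norm_nonneg _), ha, ← norm_mul]
      congr 2
      rw [hz]
      field_simp
    have e2 : ∀ i ∈ Finset.range 5, bc k i ^ 2 * (‖F‖ ^ (2 * k - 2 * i) * ‖G‖ ^ (2 * i)) *
        ρ ^ (2 * i) = a ^ (2 * k) * (bc k i ^ 2 * ‖z‖ ^ (2 * i)) := by
      intro i _
      have h3 : ‖F‖ ^ (2 * k - 2 * i) = a ^ (2 * k) / a ^ (2 * i) := by
        rw [← ha, Real.rpow_sub hap]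
        congr 1
        rw [show (2 * (i : ℝ)) = ((2 * i : ℕ) : ℝ) by push_cast; ring, Real.rpow_natCast]
      rw [h3, hzn, hb, div_pow, mul_pow]
      ring
    rw [Finset.sum_congr rfl e2, Finset.sum_congr rfl e1, ← Finset.mul_sum, ← Finset.mul_sum,
      mul_div_assoc, ← mul_sub, abs_mul, abs_of_nonneg (by positivity : (0 : ℝ) ≤ a ^ (2 * k))]
    have h5 := h z hzδ
    have h6 : ‖z‖ ^ 9 ≤ ‖z‖ ^ q := by
      rw [← Real.rpow_natCast ‖z‖ 9]
      exact Real.rpow_le_rpow_of_exponent_ge' (norm_nonneg _) hz1' (by linarith)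
        (by push_cast; linarith)
    have h7 : a ^ (2 * k) * ‖z‖ ^ q = ρ ^ q * (‖F‖ ^ (2 * k - q) * ‖G‖ ^ q) := by
      rw [hzn, Real.div_rpow hb0 ha0, hb, Real.mul_rpow hρ.le (norm_nonneg _), ← ha,
        Real.rpow_sub hap]
      ring
    refine (mul_le_mul_of_nonneg_left h5 (by positivity)).trans ?_
    have h8 : a ^ (2 * k) * (C * ‖z‖ ^ 9) ≤ C * (a ^ (2 * k) * ‖z‖ ^ q) := by
      have h9 : C * (a ^ (2 * k) * ‖z‖ ^ 9) ≤ C * (a ^ (2 * k) * ‖z‖ ^ q) :=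
        mul_le_mul_of_nonneg_left (mul_le_mul_of_nonneg_left h6 (by positivity)) hC
      linarith
    rw [h7] at h8
    refine h8.trans ?_
    rw [T2]
    nlinarith [mul_nonneg hC T2', mul_nonneg hC1' T1, mul_nonneg hC1' T2']
  · push Not at hcase
    have haK : a ≤ K * b := by
      rw [hK, one_div, ← div_eq_inv_mul, le_div_iff₀ hδ'0]
      linarith
    have f1 : (∑ j ∈ Finset.range 9, ‖F + (ρ * ζ j) * G‖ ^ (2 * k)) / 9 ≤
        (K + 1) ^ (2 * k) * b ^ (2 * k) := by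
      have h3 : ∀ j ∈ Finset.range 9, ‖F + (ρ * ζ j) * G‖ ^ (2 * k) ≤
          (K + 1) ^ (2 * k) * b ^ (2 * k) := by
        intro j _
        rw [← Real.mul_rpow (by positivity) hb0]
        refine Real.rpow_le_rpow (norm_nonneg _) ?_ (by linarith)
        refine (norm_add_le _ _).trans ?_
        rw [norm_mul, norm_mul, hζ, mul_one, Complex.norm_real, Real.norm_of_nonneg hρ.le,
          ← hb, ← ha]
        linarith
      have h4 := Finset.sum_le_card_nsmul _ _ _ h3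
      rw [Finset.card_range, nsmul_eq_mul] at h4
      push_cast at h4
      linarith
    have f0 : 0 ≤ (∑ j ∈ Finset.range 9, ‖F + (ρ * ζ j) * G‖ ^ (2 * k)) / 9 := by positivity
    have f2 : ∑ i ∈ Finset.range 5, bc k i ^ 2 * (‖F‖ ^ (2 * k - 2 * i) * ‖G‖ ^ (2 * i)) *
        ρ ^ (2 * i) ≤ S0 * b ^ (2 * k) := by
      rw [hS0, Finset.sum_mul]
      apply Finset.sum_le_sum
      intro i hi
      have hi5 : i < 5 := Finset.mem_range.1 hi
      have hi4 : (i : ℝ) ≤ 4 := by exact_mod_cast (by omega : i ≤ 4)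
      have hpos : 0 < 2 * k - 2 * (i : ℝ) := by linarith
      have g1 : ‖F‖ ^ (2 * k - 2 * (i : ℝ)) ≤
          K ^ (2 * k - 2 * (i : ℝ)) * b ^ (2 * k - 2 * (i : ℝ)) := by
        rw [← Real.mul_rpow hK0.le hb0, ← ha]
        exact Real.rpow_le_rpow ha0 haK hpos.le
      have g2 : b ^ (2 * k - 2 * (i : ℝ)) * b ^ (2 * i) = b ^ (2 * k) := by
        rw [← Real.rpow_natCast b (2 * i), ← Real.rpow_add' hb0 (by push_cast; linarith)]
        congr 1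
        push_cast
        ring
      have g3 : bc k i ^ 2 * (‖F‖ ^ (2 * k - 2 * (i : ℝ)) * ‖G‖ ^ (2 * i)) * ρ ^ (2 * i) =
          bc k i ^ 2 * (‖F‖ ^ (2 * k - 2 * (i : ℝ)) * b ^ (2 * i)) := by
        rw [hb, mul_pow]
        ring
      rw [g3, ← g2]
      have g4 : ‖F‖ ^ (2 * k - 2 * (i : ℝ)) * b ^ (2 * i) ≤
          K ^ (2 * k - 2 * (i : ℝ)) * b ^ (2 * k - 2 * (i : ℝ)) * b ^ (2 * i) :=
        mul_le_mul_of_nonneg_right g1 (by positivity)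
      have g5 := mul_le_mul_of_nonneg_left g4 (sq_nonneg (bc k i))
      refine g5.trans (le_of_eq ?_)
      ring
    have f3 : 0 ≤ ∑ i ∈ Finset.range 5, bc k i ^ 2 * (‖F‖ ^ (2 * k - 2 * i) * ‖G‖ ^ (2 * i)) *
        ρ ^ (2 * i) := Finset.sum_nonneg fun i _ => by positivity
    have f4 : C1 * b ^ (2 * k) ≤
        (C + C1) * (ρ ^ q * (‖F‖ ^ (2 * k - q) * ‖G‖ ^ q) + ρ ^ (2 * k) * ‖G‖ ^ (2 * k)) := by
      rw [T2]
      nlinarith [mul_nonneg hC T2', mul_nonneg hC1' T1, mul_nonneg hC T1]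
    refine le_trans ?_ f4
    rw [hC1, add_mul]
    have f5 : 0 ≤ (K + 1) ^ (2 * k) * b ^ (2 * k) := by positivity
    have f6 : 0 ≤ S0 * b ^ (2 * k) := by positivity
    rw [abs_le]
    constructor <;> linarith

end Pool.Agent.R260.SC
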