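import Pool.Agent.R260.SC.Defs3
import Pool.Agent.R260.SC.JT

/-!
# The Schatten norm of `1 + β E₁₂`
-/

set_option autoImplicit false

open Matrix

namespace Pool.Agent.R260.SC

theorem pb_aux (p u l0 l1 : ℝ) (hs : l0 + l1 = Real.exp (2 * u) + Real.exp (-(2 * u)))
    (hp : l0 * l1 = 1) : l0 ^ (p / 2) + l1 ^ (p / 2) = 2 * Real.cosh (p * u) := by
  have he : Real.exp (2 * u) * Real.exp (-(2 * u)) = 1 := by
    rw [← Real.exp_add]; simp
  have h1 : (l0 - Real.exp (2 * u)) * (l0 - Real.exp (-(2 * u))) = 0 := by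
    have : (l0 - Real.exp (2 * u)) * (l0 - Real.exp (-(2 * u))) =
        l0 * l0 - (Real.exp (2 * u) + Real.exp (-(2 * u))) * l0 +
          Real.exp (2 * u) * Real.exp (-(2 * u)) := by ring
    rw [this, he, ← hs, ← hp]; ring
  have e1 : Real.exp (2 * u) ^ (p / 2) = Real.exp (p * u) := by
    rw [← Real.exp_mul]; congr 1; ring
  have e2 : Real.exp (-(2 * u)) ^ (p / 2) = Real.exp (-(p * u)) := by
    rw [← Real.exp_mul]; congr 1; ring
  rw [Real.cosh_eq]
  rcases mul_eq_zero.1 h1 with h | h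
  · have a0 : l0 = Real.exp (2 * u) := by linarith
    have a1 : l1 = Real.exp (-(2 * u)) := by linarith
    rw [a0, a1, e1, e2]; ring
  · have a0 : l0 = Real.exp (-(2 * u)) := by linarith
    have a1 : l1 = Real.exp (2 * u) := by linarith
    rw [a0, a1, e1, e2]; ring

theorem pb : S_PB := by
  intro p β
  set M : Matrix (Fin 2) (Fin 2) ℂ := (1 : ℂ) • (1 : Matrix (Fin 2) (Fin 2) ℂ) + β • E₁₂ with hM
  have hMM : Mᴴ * M = jN β := jN_eq β
  have hβ : star β * β = ((‖β‖ ^ 2 : ℝ) : ℂ) := by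
    have := Complex.conj_mul' β
    simpa using this
  have hH := isHermitian_conjTranspose_mul_self M
  have hdet := (isHermitian_conjTranspose_mul_self M).det_eq_prod_eigenvalues
  have htr := (isHermitian_conjTranspose_mul_self M).trace_eq_sum_eigenvalues
  have d1 : (Mᴴ * M).det = 1 := by
    rw [hMM, jN, Matrix.det_fin_two_of]; ring
  have t1 : (Mᴴ * M).trace = ((2 + ‖β‖ ^ 2 : ℝ) : ℂ) := by
    rw [hMM, Matrix.trace_fin_two]
    simp only [jN, Matrix.of_apply, Matrix.cons_val', Matrix.cons_val_zero,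
      Matrix.cons_val_one, Matrix.cons_val_fin_one]
    rw [hβ]; push_cast; ring
  rw [d1, Fin.prod_univ_two] at hdet
  rw [t1, Fin.sum_univ_two] at htr
  unfold sch
  rw [Fin.sum_univ_two]
  apply pb_aux
  · have h2 : (isHermitian_conjTranspose_mul_self M).eigenvalues 0 +
        (isHermitian_conjTranspose_mul_self M).eigenvalues 1 = 2 + ‖β‖ ^ 2 := by
      apply Complex.ofReal_injective
      rw [Complex.ofReal_add]
      exact htr.symm
    rw [h2]
    have h3 := Real.cosh_eq (2 * Real.arsinh (‖β‖ / 2))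
    have h4 : Real.cosh (2 * Real.arsinh (‖β‖ / 2)) = 1 + 2 * (‖β‖ / 2) ^ 2 := by
      rw [Real.cosh_two_mul, Real.cosh_sq, Real.sinh_arsinh]; ring
    linarith
  · apply Complex.ofReal_injective
    rw [Complex.ofReal_mul, Complex.ofReal_one]
    exact hdet.symm

end Pool.Agent.R260.SC
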