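import Pool.Agent.R260.SC.Defs3

set_option autoImplicit false

open Set

namespace Pool.Agent.R260.SC

namespace PCaux

/-- energy-free bound for `D'' = m² D + g` -/
theorem ode_bound (m K : ℝ) (hK : 0 ≤ K) (D D' g : ℝ → ℝ) (h0 : D 0 = 0) (h0' : D' 0 = 0)
    (hD : ∀ u, HasDerivAt D (D' u) u) (hD' : ∀ u, HasDerivAt D' (m ^ 2 * D u + g u) u)
    (hg : ∀ u ∈ Icc (0 : ℝ) 1, |g u| ≤ K * u ^ 8) :
    ∀ u ∈ Icc (0 : ℝ) 1, |D u| ≤ Real.exp (4 * |m|) * K * u ^ 10 := by
  have hexp : ∀ (c : ℝ) (u : ℝ), HasDerivAt (fun u => Real.exp (c * u)) (c * Real.exp (c * u)) u := by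
    intro c u
    have h1 : HasDerivAt (fun u : ℝ => c * u) c u := by
      simpa using (hasDerivAt_id u).const_mul c
    have h2 := h1.exp
    refine h2.congr_deriv ?_
    ring
  have hle : ∀ c : ℝ, |c| ≤ |m| → ∀ u ∈ Icc (0 : ℝ) 1, Real.exp (c * u) ≤ Real.exp |m| := by
    intro c hc u hu
    apply Real.exp_le_exp.2
    calc c * u ≤ |c| * u := mul_le_mul_of_nonneg_right (le_abs_self c) hu.1
      _ ≤ |m| * 1 := mul_le_mul hc hu.2 hu.1 (abs_nonneg m)
      _ = |m| := mul_one _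
  have hmul : ∀ c : ℝ, ∀ u : ℝ, Real.exp (c * u) * Real.exp (-c * u) = 1 := by
    intro c u
    rw [← Real.exp_add]
    simp
  -- first integration
  have step1 : ∀ u ∈ Icc (0 : ℝ) 1, ‖Real.exp (m * u) * (D' u - m * D u)‖ ≤
      Real.exp |m| * K * u ^ 9 := by
    have hder : ∀ u, HasDerivAt (fun u => Real.exp (m * u) * (D' u - m * D u))
        (Real.exp (m * u) * g u) u := by
      intro u
      refine ((hexp m u).mul ((hD' u).sub ((hD u).const_mul m))).congr_deriv ?_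
      simp only [Pi.sub_apply]
      ring
    refine image_norm_le_of_norm_deriv_right_le_deriv_boundary
      (f' := fun u => Real.exp (m * u) * g u)
      (B' := fun u => Real.exp |m| * K * (9 * u ^ 8))
      (fun u _ => (hder u).continuousAt.continuousWithinAt)
      (fun u _ => (hder u).hasDerivWithinAt) ?_ ?_ ?_
    · simp [h0, h0']
    · intro u
      refine ((hasDerivAt_pow 9 u).const_mul (Real.exp |m| * K)).congr_deriv ?_
      norm_num
    · intro u hu
      have hu' : u ∈ Icc (0 : ℝ) 1 := ⟨hu.1, hu.2.le⟩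
      rw [Real.norm_eq_abs, abs_mul, abs_of_pos (Real.exp_pos _)]
      have h8 : 0 ≤ u ^ 8 := by positivity
      calc Real.exp (m * u) * |g u| ≤ Real.exp |m| * (K * u ^ 8) :=
            mul_le_mul (hle m le_rfl u hu') (hg u hu') (abs_nonneg _) (Real.exp_pos _).le
        _ ≤ Real.exp |m| * K * (9 * u ^ 8) := by
            have : 0 ≤ Real.exp |m| * K * u ^ 8 := by positivity
            nlinarith
  have step1' : ∀ u ∈ Icc (0 : ℝ) 1, |D' u - m * D u| ≤ Real.exp |m| * Real.exp |m| * K * u ^ 9 := by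
    intro u hu
    have h1 := step1 u hu
    rw [Real.norm_eq_abs, abs_mul, abs_of_pos (Real.exp_pos _)] at h1
    have h2 : |D' u - m * D u| = Real.exp (-m * u) * (Real.exp (m * u) * |D' u - m * D u|) := by
      rw [← mul_assoc, mul_comm (Real.exp (-m * u)), hmul, one_mul]
    rw [h2]
    calc Real.exp (-m * u) * (Real.exp (m * u) * |D' u - m * D u|)
        ≤ Real.exp |m| * (Real.exp |m| * K * u ^ 9) :=
          mul_le_mul (hle (-m) (by rw [abs_neg]) u hu) h1 (by positivity) (Real.exp_pos _).le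
      _ = _ := by ring
  -- second integration
  have step2 : ∀ u ∈ Icc (0 : ℝ) 1, ‖Real.exp (-m * u) * D u‖ ≤
      Real.exp |m| * (Real.exp |m| * Real.exp |m| * K) * u ^ 10 := by
    have hder : ∀ u, HasDerivAt (fun u => Real.exp (-m * u) * D u)
        (Real.exp (-m * u) * (D' u - m * D u)) u := by
      intro u
      refine ((hexp (-m) u).mul (hD u)).congr_deriv ?_
      ring
    refine image_norm_le_of_norm_deriv_right_le_deriv_boundary
      (f' := fun u => Real.exp (-m * u) * (D' u - m * D u))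
      (B' := fun u => Real.exp |m| * (Real.exp |m| * Real.exp |m| * K) * (10 * u ^ 9))
      (fun u _ => (hder u).continuousAt.continuousWithinAt)
      (fun u _ => (hder u).hasDerivWithinAt) ?_ ?_ ?_
    · simp [h0]
    · intro u
      refine ((hasDerivAt_pow 10 u).const_mul
        (Real.exp |m| * (Real.exp |m| * Real.exp |m| * K))).congr_deriv ?_
      norm_num
    · intro u hu
      have hu' : u ∈ Icc (0 : ℝ) 1 := ⟨hu.1, hu.2.le⟩
      rw [Real.norm_eq_abs, abs_mul, abs_of_pos (Real.exp_pos _)]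
      have hu0 : 0 ≤ u := hu.1
      calc Real.exp (-m * u) * |D' u - m * D u| ≤
            Real.exp |m| * (Real.exp |m| * Real.exp |m| * K * u ^ 9) :=
            mul_le_mul (hle (-m) (by rw [abs_neg]) u hu') (step1' u hu') (abs_nonneg _)
              (Real.exp_pos _).le
        _ ≤ Real.exp |m| * (Real.exp |m| * Real.exp |m| * K) * (10 * u ^ 9) := by
            have : 0 ≤ Real.exp |m| * (Real.exp |m| * Real.exp |m| * K) * u ^ 9 := by positivity
            nlinarith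
  intro u hu
  have h1 := step2 u hu
  rw [Real.norm_eq_abs, abs_mul, abs_of_pos (Real.exp_pos _)] at h1
  have h2 : |D u| = Real.exp (m * u) * (Real.exp (-m * u) * |D u|) := by
    rw [← mul_assoc, hmul, one_mul]
  rw [h2]
  have h3 : Real.exp (4 * |m|) = Real.exp |m| * Real.exp |m| * Real.exp |m| * Real.exp |m| := by
    rw [← Real.exp_add, ← Real.exp_add, ← Real.exp_add]
    congr 1
    ring
  calc Real.exp (m * u) * (Real.exp (-m * u) * |D u|)
      ≤ Real.exp |m| * (Real.exp |m| * (Real.exp |m| * Real.exp |m| * K) * u ^ 10) :=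
        mul_le_mul (hle m le_rfl u hu) h1 (by positivity) (Real.exp_pos _).le
    _ = _ := by rw [h3]; ring

noncomputable def S (u : ℝ) : ℝ := 4 * Real.sinh u ^ 2
noncomputable def T (u : ℝ) : ℝ := 8 * Real.sinh u * Real.cosh u

theorem hS (u : ℝ) : HasDerivAt S (T u) u := by
  unfold S T
  refine (((Real.hasDerivAt_sinh u).pow 2).const_mul 4).congr_deriv ?_
  norm_num
  ring

theorem hT (u : ℝ) : HasDerivAt T (4 * S u + 8) u := by
  unfold S T
  refine (((Real.hasDerivAt_sinh u).const_mul 8).mul (Real.hasDerivAt_cosh u)).congr_deriv ?_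
  have := Real.cosh_sq u
  linear_combination 8 * this

theorem hTT (u : ℝ) : T u ^ 2 = 16 * S u + 4 * S u ^ 2 := by
  unfold S T
  have := Real.cosh_sq u
  linear_combination 64 * Real.sinh u ^ 2 * this

theorem sinh_le (u : ℝ) (hu : u ∈ Icc (0 : ℝ) 1) : |Real.sinh u| ≤ Real.cosh 1 * u := by
  have := image_norm_le_of_norm_deriv_right_le_deriv_boundary (a := 0) (b := 1)
    (f := Real.sinh) (f' := Real.cosh) (B := fun u => Real.cosh 1 * u)
    (B' := fun _ => Real.cosh 1) Real.continuous_sinh.continuousOn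
    (fun u _ => (Real.hasDerivAt_sinh u).hasDerivWithinAt) (by simp)
    (fun u => by simpa using (hasDerivAt_id u).const_mul (Real.cosh 1))
    (fun u hu => by
      rw [Real.norm_eq_abs, abs_of_pos (Real.cosh_pos u)]
      apply Real.cosh_le_cosh.2
      rw [abs_of_nonneg hu.1, abs_one]
      exact hu.2.le) hu
  simpa using this

theorem main (k : ℝ) (c : ℕ → ℝ) (h0 : c 0 = 2) (h1 : c 1 * 8 = c 0 * (4 * k ^ 2))
    (h2 : c 2 * 48 = c 1 * (4 * (k ^ 2 - 1))) (h3 : c 3 * 120 = c 2 * (4 * (k ^ 2 - 4)))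
    (h4 : c 4 * 224 = c 3 * (4 * (k ^ 2 - 9))) :
    ∃ C : ℝ, 0 ≤ C ∧ ∀ u ∈ Icc (0 : ℝ) 1, |2 * Real.cosh (2 * k * u) -
      (c 0 + c 1 * S u + c 2 * S u ^ 2 + c 3 * S u ^ 3 + c 4 * S u ^ 4)| ≤ C * u ^ 10 := by
  obtain ⟨K, hK⟩ : ∃ K, K = |4 * (k ^ 2 - 16) * c 4| * (4 * Real.cosh 1 ^ 2) ^ 4 := ⟨_, rfl⟩
  have hK0 : 0 ≤ K := by rw [hK]; positivity
  refine ⟨Real.exp (4 * |2 * k|) * K, by positivity, ?_⟩
  refine ode_bound (2 * k) K hK0 _
    (fun u => 2 * (2 * k) * Real.sinh (2 * k * u) -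
      (c 1 + 2 * c 2 * S u + 3 * c 3 * S u ^ 2 + 4 * c 4 * S u ^ 3) * T u)
    (fun u => 4 * (k ^ 2 - 16) * c 4 * S u ^ 4) ?_ ?_ ?_ ?_ ?_
  · simp [S, h0]
  · simp [S, T]
  · intro u
    have a1 : HasDerivAt (fun u : ℝ => 2 * k * u) (2 * k) u := by
      simpa using (hasDerivAt_id u).const_mul (2 * k)
    have a2 := (a1.cosh).const_mul 2
    have b1 := (hS u).const_mul (c 1)
    have b2 := ((hS u).pow 2).const_mul (c 2)
    have b3 := ((hS u).pow 3).const_mul (c 3)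
    have b4 := ((hS u).pow 4).const_mul (c 4)
    refine (a2.sub ((((b1.const_add (c 0)).add b2).add b3).add b4)).congr_deriv ?_
    norm_num
    ring
  · intro u
    have a1 : HasDerivAt (fun u : ℝ => 2 * k * u) (2 * k) u := by
      simpa using (hasDerivAt_id u).const_mul (2 * k)
    have a2 := (a1.sinh).const_mul (2 * (2 * k))
    have b1 := (hS u).const_mul (2 * c 2)
    have b2 := ((hS u).pow 2).const_mul (3 * c 3)
    have b3 := ((hS u).pow 3).const_mul (4 * c 4)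
    refine (a2.sub ((((b1.const_add (c 1)).add b2).add b3).mul (hT u))).congr_deriv ?_
    norm_num
    have e := hTT u
    linear_combination (-(2 * c 2 + 6 * c 3 * S u + 12 * c 4 * S u ^ 2)) * e - h1 - (S u) * h2 -
      (S u ^ 2) * h3 - (S u ^ 3) * h4
  · intro u hu
    have hs := sinh_le u hu
    have hu0 := hu.1
    have hS4 : |S u| ≤ 4 * Real.cosh 1 ^ 2 * u ^ 2 := by
      unfold S
      rw [abs_of_nonneg (by positivity), ← sq_abs]
      have := pow_le_pow_left₀ (abs_nonneg _) hs 2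
      nlinarith
    rw [abs_mul, abs_pow, hK]
    calc |4 * (k ^ 2 - 16) * c 4| * |S u| ^ 4
        ≤ |4 * (k ^ 2 - 16) * c 4| * (4 * Real.cosh 1 ^ 2 * u ^ 2) ^ 4 := by gcongr
      _ = _ := by ring

end PCaux

open PCaux in
theorem pc : S_PC := by
  intro k _
  have e0 : cr k 0 = 2 := rfl
  have e1 : cr k 1 = cr k 0 * (k ^ 2 - ((0 : ℕ) : ℝ) ^ 2) / ((2 * ((0 : ℕ) : ℝ) + 1) * (2 * ((0 : ℕ) : ℝ) + 2)) := rfl
  have e2 : cr k 2 = cr k 1 * (k ^ 2 - ((1 : ℕ) : ℝ) ^ 2) / ((2 * ((1 : ℕ) : ℝ) + 1) * (2 * ((1 : ℕ) : ℝ) + 2)) := rfl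
  have e3 : cr k 3 = cr k 2 * (k ^ 2 - ((2 : ℕ) : ℝ) ^ 2) / ((2 * ((2 : ℕ) : ℝ) + 1) * (2 * ((2 : ℕ) : ℝ) + 2)) := rfl
  have e4 : cr k 4 = cr k 3 * (k ^ 2 - ((3 : ℕ) : ℝ) ^ 2) / ((2 * ((3 : ℕ) : ℝ) + 1) * (2 * ((3 : ℕ) : ℝ) + 2)) := rfl
  obtain ⟨C, hC, H⟩ := main k (cr k) e0 (by rw [e1]; push_cast; ring) (by rw [e2]; push_cast; ring)
    (by rw [e3]; push_cast; ring) (by rw [e4]; push_cast; ring)
  refine ⟨C, 1, hC, one_pos, fun ρ hρ hρ1 => ?_⟩
  obtain ⟨u, hu⟩ : ∃ u, u = Real.arsinh (ρ / 2) := ⟨_, rfl⟩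
  have hsu : Real.sinh u = ρ / 2 := by rw [hu, Real.sinh_arsinh]
  have hu0 : 0 ≤ u := by
    rw [hu, Real.arsinh_nonneg_iff]
    positivity
  have hule : u ≤ ρ / 2 := by
    rw [← hsu]
    exact Real.self_le_sinh_iff.2 hu0
  have hmem : u ∈ Icc (0 : ℝ) 1 := ⟨hu0, by linarith⟩
  have h1 := H u hmem
  have hS : S u = ρ ^ 2 := by
    unfold S
    rw [hsu]
    ring
  rw [hS] at h1
  rw [← hu]
  have h2 : ∑ i ∈ Finset.range 5, cr k i * ρ ^ (2 * i) =
      cr k 0 + cr k 1 * ρ ^ 2 + cr k 2 * (ρ ^ 2) ^ 2 + cr k 3 * (ρ ^ 2) ^ 3 +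
        cr k 4 * (ρ ^ 2) ^ 4 := by
    simp only [Finset.sum_range_succ, Finset.sum_range_zero]
    ring
  rw [h2]
  refine h1.trans (mul_le_mul_of_nonneg_left ?_ hC)
  exact pow_le_pow_left₀ hu0 (by linarith) 10

end Pool.Agent.R260.SC
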