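import Pool.Agent.R260.SC.Defs3

/-!
# Comparison of coefficients (MP_41c25d_an)
-/

set_option autoImplicit false

open MeasureTheory Matrix Filter Topology

namespace Pool.Agent.R260.SC

theorem pd : S_PD := by
  intro d q C δ hq hδ h i
  induction i using Nat.strong_induction_on with
  | _ i ih =>
    intro hi
    have hiR : (i : ℝ) ≤ 4 := by
      have : i ≤ 4 := by omega
      exact_mod_cast this
    have he : 0 < q - 2 * (i : ℝ) := by linarith
    let g : ℝ → ℝ := fun ρ => ∑ j ∈ Finset.range 5, d j * (if j < i then 0 else ρ ^ (2 * j - 2 * i))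
    have hg : Continuous g := by
      refine continuous_finset_sum _ fun j _ => ?_
      split_ifs
      · exact continuous_const
      · exact continuous_const.mul (continuous_pow _)
    have hg0 : g 0 = d i := by
      simp only [g]
      rw [Finset.sum_eq_single i]
      · simp
      · intro j _ hji
        split_ifs with h1
        · simp
        · rw [zero_pow (by omega), mul_zero]
      · intro h1
        exact absurd (Finset.mem_range.2 hi) h1
    have hfac : ∀ ρ : ℝ, ∑ j ∈ Finset.range 5, d j * ρ ^ (2 * j) = ρ ^ (2 * i) * g ρ := by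
      intro ρ
      simp only [g, Finset.mul_sum]
      refine Finset.sum_congr rfl fun j hj => ?_
      split_ifs with h1
      · rw [ih j h1 (Finset.mem_range.1 hj)]
        simp
      · have h2 : ρ ^ (2 * j) = ρ ^ (2 * i) * ρ ^ (2 * j - 2 * i) := by
          rw [← pow_add]
          congr 1
          omega
        rw [h2]
        ring
    have hbd : ∀ ρ : ℝ, 0 < ρ → ρ < δ → |g ρ| ≤ C * ρ ^ (q - 2 * (i : ℝ)) := by
      intro ρ h0 h1
      have h2 := h ρ h0 h1
      rw [hfac ρ, abs_mul, abs_of_pos (pow_pos h0 _)] at h2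
      have h3 : ρ ^ q = ρ ^ (2 * i) * ρ ^ (q - 2 * (i : ℝ)) := by
        rw [← Real.rpow_natCast, ← Real.rpow_add h0]
        congr 1
        push_cast
        ring
      rw [h3] at h2
      have h4 : 0 < ρ ^ (2 * i) := pow_pos h0 _
      have h5 : ρ ^ (2 * i) * |g ρ| ≤ ρ ^ (2 * i) * (C * ρ ^ (q - 2 * (i : ℝ))) := by
        linarith
      exact le_of_mul_le_mul_left h5 h4
    have t1 : Tendsto (fun ρ => |g ρ|) (𝓝[>] (0 : ℝ)) (𝓝 |d i|) := by
      rw [← hg0]
      exact (hg.abs.tendsto 0).mono_left nhdsWithin_le_nhds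
    have t2 : Tendsto (fun ρ : ℝ => C * ρ ^ (q - 2 * (i : ℝ))) (𝓝[>] (0 : ℝ)) (𝓝 (C * 0)) := by
      refine Tendsto.const_mul C ?_
      have h6 : Tendsto (fun ρ : ℝ => ρ ^ (q - 2 * (i : ℝ))) (𝓝 0)
          (𝓝 ((0 : ℝ) ^ (q - 2 * (i : ℝ)))) :=
        (Real.continuousAt_rpow_const 0 _ (Or.inr he.le))
      rw [Real.zero_rpow he.ne'] at h6
      exact h6.mono_left nhdsWithin_le_nhds
    have hev : ∀ᶠ ρ in 𝓝[>] (0 : ℝ), |g ρ| ≤ C * ρ ^ (q - 2 * (i : ℝ)) := by
      filter_upwards [Ioo_mem_nhdsGT hδ] with ρ hρ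
      exact hbd ρ hρ.1 hρ.2
    have hle := le_of_tendsto_of_tendsto t1 t2 hev
    rw [mul_zero] at hle
    exact abs_eq_zero.1 (le_antisymm hle (abs_nonneg _))

end Pool.Agent.R260.SC
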