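import Pool.Agent.R260.SC.Defs3

/-!
# PE: the moments are determined (project SC, helper260; piece by helper738)
-/

set_option autoImplicit false

open MeasureTheory Matrix Filter Topology

namespace Pool.Agent.R260.SC

theorem pe_dom (a b P s : ℝ) (ha : 0 ≤ a) (hb : 0 ≤ b) (hs : 0 ≤ s) (hsP : s ≤ P) :
    a ^ (P - s) * b ^ s ≤ a ^ P + b ^ P := by
  rcases le_total a b with h | h
  · have h1 : a ^ (P - s) * b ^ s ≤ b ^ (P - s) * b ^ s :=
      mul_le_mul_of_nonneg_right (Real.rpow_le_rpow ha h (by linarith)) (Real.rpow_nonneg hb _)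
    have h2 : b ^ (P - s) * b ^ s = b ^ P := by
      rw [← Real.rpow_add_of_nonneg hb (by linarith) hs]
      congr 1
      ring
    have h3 := Real.rpow_nonneg ha P
    linarith
  · have h1 : a ^ (P - s) * b ^ s ≤ a ^ (P - s) * a ^ s :=
      mul_le_mul_of_nonneg_left (Real.rpow_le_rpow hb h hs) (Real.rpow_nonneg ha _)
    have h2 : a ^ (P - s) * a ^ s = a ^ P := by
      rw [← Real.rpow_add_of_nonneg ha (by linarith) hs]
      congr 1
      ring
    have h3 := Real.rpow_nonneg hb P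
    linarith

theorem pe_int_pow (μ : Measure ℝ) (k : ℝ) (hk : 4 < k) (f : ℝ → ℂ)
    (hf : MemLp f (ENNReal.ofReal (2 * k)) μ) : Integrable (fun t => ‖f t‖ ^ (2 * k)) μ := by
  have h := hf.integrable_norm_rpow (by
    rw [Ne, ENNReal.ofReal_eq_zero, not_le]
    linarith) ENNReal.ofReal_ne_top
  rwa [ENNReal.toReal_ofReal (by linarith)] at h

theorem pe_int (μ : Measure ℝ) (k : ℝ) (hk : 4 < k) (f g : ℝ → ℂ)
    (hf : MemLp f (ENNReal.ofReal (2 * k)) μ) (hg : MemLp g (ENNReal.ofReal (2 * k)) μ) (s : ℝ)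
    (hs : 0 ≤ s) (hsk : s ≤ 2 * k) :
    Integrable (fun t => ‖f t‖ ^ (2 * k - s) * ‖g t‖ ^ s) μ := by
  refine Integrable.mono' ((pe_int_pow μ k hk f hf).add (pe_int_pow μ k hk g hg)) ?_ ?_
  · exact ((hf.1.norm.aemeasurable.pow_const _).mul
      (hg.1.norm.aemeasurable.pow_const _)).aestronglyMeasurable
  · refine Filter.Eventually.of_forall fun t => ?_
    rw [Real.norm_of_nonneg (by positivity)]
    exact pe_dom _ _ _ _ (norm_nonneg _) (norm_nonneg _) hs hsk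

theorem pe (ha : S_PA) (hc : S_PC) (hd : S_PD) : S_PE := by
  intro k f g hk hf hg hint
  obtain ⟨C, q, ζ, hC, hq8, hqk, hζ, hexp⟩ := ha k hk
  obtain ⟨C', δ, hC', hδ, hch⟩ := hc k hk
  have hI : ∀ i : ℕ, i < 5 → Integrable (fun t => ‖f t‖ ^ (2 * k - 2 * i) * ‖g t‖ ^ (2 * i))
      (volume.restrict (Set.Ioo (0:ℝ) 1)) := by
    intro i hi
    have hi' : (i : ℝ) ≤ 4 := by exact_mod_cast Nat.lt_succ_iff.1 hi
    have h := pe_int _ k hk f g hf hg (2 * i) (by positivity) (by linarith)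
    refine h.congr (Filter.Eventually.of_forall fun t => ?_)
    change ‖f t‖ ^ (2 * k - 2 * i) * ‖g t‖ ^ (2 * (i : ℝ)) =
      ‖f t‖ ^ (2 * k - 2 * i) * ‖g t‖ ^ (2 * i)
    rw [← Real.rpow_natCast ‖g t‖ (2 * i)]
    push_cast
    rfl
  have hIq := pe_int _ k hk f g hf hg q (by linarith) hqk
  have hIg := pe_int_pow _ k hk g hg
  have hIj : ∀ β : ℂ, Integrable (fun t => ‖f t + β * g t‖ ^ (2 * k))
      (volume.restrict (Set.Ioo (0:ℝ) 1)) := fun β =>
    pe_int_pow _ k hk (fun t => f t + β * g t) (hf.add (hg.const_mul β))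
  obtain ⟨m, hm⟩ : ∃ m : ℕ → ℝ, ∀ i, m i = ∫ t in Set.Ioo (0:ℝ) 1,
    ‖f t‖ ^ (2 * k - 2 * i) * ‖g t‖ ^ (2 * i) := ⟨_, fun i => rfl⟩
  obtain ⟨M', hM'⟩ : ∃ M' : ℝ, M' = ∫ t in Set.Ioo (0:ℝ) 1, ‖f t‖ ^ (2 * k - q) * ‖g t‖ ^ q :=
    ⟨_, rfl⟩
  obtain ⟨M2, hM2⟩ : ∃ M2 : ℝ, M2 = ∫ t in Set.Ioo (0:ℝ) 1, ‖g t‖ ^ (2 * k) := ⟨_, rfl⟩
  have hM'0 : 0 ≤ M' := by
    rw [hM']
    exact integral_nonneg fun t => by positivity
  have hM20 : 0 ≤ M2 := by
    rw [hM2]
    exact integral_nonneg fun t => by positivity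
  have key : ∀ ρ : ℝ, 0 < ρ → |2 * Real.cosh (2 * k * Real.arsinh (ρ / 2)) -
      ∑ i ∈ Finset.range 5, bc k i ^ 2 * m i * ρ ^ (2 * i)| ≤
        C * (ρ ^ q * M' + ρ ^ (2 * k) * M2) := by
    intro ρ hρ
    have hn : ∀ j, ‖(ρ : ℂ) * ζ j‖ = ρ := fun j => by
      rw [norm_mul, hζ j, mul_one, Complex.norm_real, Real.norm_of_nonneg hρ.le]
    have I1 : Integrable (fun t => (∑ j ∈ Finset.range 9,
        ‖f t + (ρ * ζ j) * g t‖ ^ (2 * k)) / 9) (volume.restrict (Set.Ioo (0:ℝ) 1)) :=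
      (integrable_finsetSum _ fun j _ => hIj _).div_const 9
    have I2 : Integrable (fun t => ∑ i ∈ Finset.range 5,
        bc k i ^ 2 * (‖f t‖ ^ (2 * k - 2 * i) * ‖g t‖ ^ (2 * i)) * ρ ^ (2 * i))
        (volume.restrict (Set.Ioo (0:ℝ) 1)) :=
      integrable_finsetSum _ fun i hi =>
        ((hI i (Finset.mem_range.1 hi)).const_mul _).mul_const _
    have e1 : ∫ t in Set.Ioo (0:ℝ) 1, ((∑ j ∈ Finset.range 9,
        ‖f t + (ρ * ζ j) * g t‖ ^ (2 * k)) / 9 -
        ∑ i ∈ Finset.range 5,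
          bc k i ^ 2 * (‖f t‖ ^ (2 * k - 2 * i) * ‖g t‖ ^ (2 * i)) * ρ ^ (2 * i)) =
        2 * Real.cosh (2 * k * Real.arsinh (ρ / 2)) -
          ∑ i ∈ Finset.range 5, bc k i ^ 2 * m i * ρ ^ (2 * i) := by
      rw [integral_sub I1 I2]
      congr 1
      · rw [integral_div, integral_finsetSum _ (fun j _ => hIj _),
          Finset.sum_congr rfl (fun j _ => (hint (ρ * ζ j)).trans (by rw [hn j]))]
        rw [Finset.sum_const, Finset.card_range]
        simp only [nsmul_eq_mul]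
        push_cast
        ring
      · rw [integral_finsetSum _ (fun i hi =>
          ((hI i (Finset.mem_range.1 hi)).const_mul _).mul_const _)]
        refine Finset.sum_congr rfl fun i _ => ?_
        rw [integral_mul_const, integral_const_mul, hm i]
    have e2 := norm_integral_le_of_norm_le
      (f := fun t => (∑ j ∈ Finset.range 9,
        ‖f t + (ρ * ζ j) * g t‖ ^ (2 * k)) / 9 -
        ∑ i ∈ Finset.range 5,
          bc k i ^ 2 * (‖f t‖ ^ (2 * k - 2 * i) * ‖g t‖ ^ (2 * i)) * ρ ^ (2 * i))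
      (((hIq.const_mul (ρ ^ q)).add (hIg.const_mul (ρ ^ (2 * k)))).const_mul C)
      (Filter.Eventually.of_forall fun t => by
        rw [Real.norm_eq_abs]
        exact hexp (f t) (g t) ρ hρ)
    rw [e1, Real.norm_eq_abs] at e2
    refine e2.trans (le_of_eq ?_)
    rw [integral_const_mul]
    congr 1
    refine (integral_add (hIq.const_mul (ρ ^ q)) (hIg.const_mul (ρ ^ (2 * k)))).trans ?_
    rw [integral_const_mul, integral_const_mul, hM', hM2]
  have hfin := hd (fun i => bc k i ^ 2 * m i - cr k i) (min q 10) (C * M' + C * M2 + C') (min δ 1)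
    (lt_min hq8 (by norm_num)) (lt_min hδ one_pos) (by
      intro ρ hρ hρδ
      have hρ1 : ρ ≤ 1 := (hρδ.trans_le (min_le_right _ _)).le
      have hρδ' : ρ < δ := hρδ.trans_le (min_le_left _ _)
      have A := key ρ hρ
      have B := hch ρ hρ hρδ'
      have hs : ∑ i ∈ Finset.range 5, (bc k i ^ 2 * m i - cr k i) * ρ ^ (2 * i) =
          (2 * Real.cosh (2 * k * Real.arsinh (ρ / 2)) -
            ∑ i ∈ Finset.range 5, cr k i * ρ ^ (2 * i)) -
          (2 * Real.cosh (2 * k * Real.arsinh (ρ / 2)) -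
            ∑ i ∈ Finset.range 5, bc k i ^ 2 * m i * ρ ^ (2 * i)) := by
        rw [Finset.sum_congr rfl (fun i _ => sub_mul (bc k i ^ 2 * m i) (cr k i) (ρ ^ (2 * i))),
          Finset.sum_sub_distrib]
        ring
      change |∑ i ∈ Finset.range 5, (bc k i ^ 2 * m i - cr k i) * ρ ^ (2 * i)| ≤ _
      rw [hs]
      have r1 : ρ ^ q ≤ ρ ^ (min q 10) :=
        Real.rpow_le_rpow_of_exponent_ge hρ hρ1 (min_le_left _ _)
      have r2 : ρ ^ (2 * k) ≤ ρ ^ (min q 10) :=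
        Real.rpow_le_rpow_of_exponent_ge hρ hρ1 ((min_le_left _ _).trans hqk)
      have r3 : ρ ^ 10 ≤ ρ ^ (min q 10) := by
        rw [← Real.rpow_natCast]
        exact Real.rpow_le_rpow_of_exponent_ge hρ hρ1 ((min_le_right _ _).trans (by norm_num))
      have s1 : C * (ρ ^ q * M') ≤ C * (ρ ^ (min q 10) * M') :=
        mul_le_mul_of_nonneg_left (mul_le_mul_of_nonneg_right r1 hM'0) hC
      have s2 : C * (ρ ^ (2 * k) * M2) ≤ C * (ρ ^ (min q 10) * M2) :=
        mul_le_mul_of_nonneg_left (mul_le_mul_of_nonneg_right r2 hM20) hC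
      have s3 : C' * ρ ^ 10 ≤ C' * ρ ^ (min q 10) := mul_le_mul_of_nonneg_left r3 hC'
      refine (abs_sub _ _).trans ?_
      have t1 : (C * M' + C * M2 + C') * ρ ^ (min q 10) = C * (ρ ^ (min q 10) * M') +
        C * (ρ ^ (min q 10) * M2) + C' * ρ ^ (min q 10) := by ring
      rw [t1]
      have t2 : C * (ρ ^ q * M' + ρ ^ (2 * k) * M2) = C * (ρ ^ q * M') +
        C * (ρ ^ (2 * k) * M2) := by ring
      linarith)
  intro i hi
  refine ⟨hI i hi, ?_⟩
  have h := hfin i hi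
  rw [← hm i]
  linarith

end Pool.Agent.R260.SC
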