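import Pool.Agent.R260.SC.Defs3

/-!
# SC-PF: the moment inequalities fail for real `k > 4`
-/

set_option autoImplicit false

open MeasureTheory Matrix Filter Topology

namespace Pool.Agent.R260.SC

/-- integrating a nonnegative combination -/
theorem pf_key (k : ℝ) (n : ℕ) (f g : ℝ → ℂ) (c : ℕ → ℝ)
    (h : ∀ i : ℕ, i < n → IntegrableOn (fun t => ‖f t‖ ^ (2 * k - 2 * i) * ‖g t‖ ^ (2 * i))
      (Set.Ioo (0:ℝ) 1))
    (hpos : ∀ x y : ℝ, 0 ≤ x → 0 ≤ y →
      0 ≤ ∑ i ∈ Finset.range n, c i * (x ^ (2 * k - 2 * i) * y ^ (2 * i))) :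
    0 ≤ ∑ i ∈ Finset.range n, c i *
      ∫ t in Set.Ioo (0:ℝ) 1, ‖f t‖ ^ (2 * k - 2 * i) * ‖g t‖ ^ (2 * i) := by
  have h1 : ∑ i ∈ Finset.range n, c i *
      ∫ t in Set.Ioo (0:ℝ) 1, ‖f t‖ ^ (2 * k - 2 * i) * ‖g t‖ ^ (2 * i) =
      ∫ t in Set.Ioo (0:ℝ) 1, ∑ i ∈ Finset.range n, c i *
        (‖f t‖ ^ (2 * k - 2 * i) * ‖g t‖ ^ (2 * i)) := by
    rw [integral_finsetSum]
    · refine Finset.sum_congr rfl fun j _ => ?_
      rw [integral_const_mul]
    · intro j hj
      exact (h j (Finset.mem_range.1 hj)).const_mul (c j)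
  rw [h1]
  exact integral_nonneg fun t => hpos ‖f t‖ ‖g t‖ (norm_nonneg _) (norm_nonneg _)

theorem pf : S_PF := by
  intro k f g hk h
  have hint : ∀ i : ℕ, i < 5 → IntegrableOn (fun t => ‖f t‖ ^ (2 * k - 2 * i) * ‖g t‖ ^ (2 * i))
      (Set.Ioo (0:ℝ) 1) := fun i hi => (h i hi).1
  have hval : ∀ i : ℕ, i < 5 → bc k i ^ 2 *
      ∫ t in Set.Ioo (0:ℝ) 1, ‖f t‖ ^ (2 * k - 2 * i) * ‖g t‖ ^ (2 * i) = cr k i :=
    fun i hi => (h i hi).2
  clear h
  have v0 := hval 0 (by norm_num)
  have v1 := hval 1 (by norm_num)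
  have v2 := hval 2 (by norm_num)
  have v3 := hval 3 (by norm_num)
  have v4 := hval 4 (by norm_num)
  have k1 : 0 < k - 1 := by linarith
  have k2 : 0 < k - 2 := by linarith
  have k3 : 0 < k - 3 := by linarith
  have k0 : 0 < k := by linarith
  rcases le_or_gt k 5 with h5 | h5
  · have key := pf_key k 5 f g
      (fun j => if j = 0 then (43/25)^2 else if j = 1 then -2*4*(43/25) else
        if j = 2 then 16 + 2*(43/25) else if j = 3 then -8 else 1) hint (by
        intro x y hx hy
        rcases hx.eq_or_lt with h0 | h0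
        · subst h0
          have z : ∀ i : ℕ, i < 5 → (0:ℝ) ^ (2 * k - 2 * i) = 0 := by
            intro i hi
            apply Real.zero_rpow
            have : (i : ℝ) ≤ 4 := by exact_mod_cast (by omega : i ≤ 4)
            intro h; linarith
          apply le_of_eq
          symm
          apply Finset.sum_eq_zero
          intro i hi
          rw [z i (Finset.mem_range.1 hi)]
          ring
        · have e : ∀ i : ℕ, i < 5 → x ^ (2 * k - 2 * i) = x ^ (2 * k - 8) * x ^ (8 - 2 * i) := by
            intro i hi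
            rw [← Real.rpow_natCast x (8 - 2 * i), ← Real.rpow_add h0]
            congr 1
            rw [Nat.cast_sub (by omega)]
            push_cast
            ring
          have : ∑ i ∈ Finset.range 5, (fun j : ℕ => if j = 0 then ((43/25:ℝ))^2 else
              if j = 1 then -2*4*(43/25) else
              if j = 2 then 16 + 2*(43/25) else if j = 3 then -8 else 1) i *
              (x ^ (2 * k - 2 * i) * y ^ (2 * i)) =
              x ^ (2 * k - 8) * (43/25 * x ^ 4 - 4 * x ^ 2 * y ^ 2 + y ^ 4) ^ 2 := by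
            rw [Finset.sum_congr rfl (fun i hi => by rw [e i (Finset.mem_range.1 hi)])]
            simp [Finset.sum_range_succ]
            ring
          rw [this]
          positivity)
    generalize hI : (fun j : ℕ => ∫ t in Set.Ioo (0:ℝ) 1,
      ‖f t‖ ^ (2 * k - 2 * j) * ‖g t‖ ^ (2 * j)) = I at *
    have hI' : ∀ j : ℕ, ∫ t in Set.Ioo (0:ℝ) 1, ‖f t‖ ^ (2 * k - 2 * j) * ‖g t‖ ^ (2 * j) = I j :=
      fun j => congrFun hI j
    simp only [hI'] at v0 v1 v2 v3 v4 key
    simp [Finset.sum_range_succ, bc, cr] at v0 v1 v2 v3 v4 key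
    have m1 : I 1 = 1 := by
      have : k ^ 2 * (I 1 - 1) = 0 := by nlinarith [v1]
      rcases mul_eq_zero.1 this with h | h
      · exact absurd h (pow_pos k0 2).ne'
      · linarith
    have m2 : 3 * (k - 1) * I 2 = k + 1 := by
      have : k ^ 2 * (k - 1) * (3 * (k - 1) * I 2 - (k + 1)) = 0 := by nlinarith [v2]
      rcases mul_eq_zero.1 this with h | h
      · exact absurd h (mul_pos (pow_pos k0 2) k1).ne'
      · linarith
    have m3 : 10 * (k - 1) * (k - 2) * I 3 = (k + 1) * (k + 2) := by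
      have : k ^ 2 * (k - 1) * (k - 2) * (10 * (k - 1) * (k - 2) * I 3 - (k + 1) * (k + 2)) = 0 := by
        linear_combination 360 * v3
      rcases mul_eq_zero.1 this with h | h
      · exact absurd h (mul_pos (mul_pos (pow_pos k0 2) k1) k2).ne'
      · linarith
    have m4 : 35 * (k - 1) * (k - 2) * (k - 3) * I 4 = (k + 1) * (k + 2) * (k + 3) := by
      have : k ^ 2 * (k - 1) * (k - 2) * (k - 3) * (35 * (k - 1) * (k - 2) * (k - 3) * I 4 -
          (k + 1) * (k + 2) * (k + 3)) = 0 := by
        linear_combination 20160 * v4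
      rcases mul_eq_zero.1 this with h | h
      · exact absurd h (mul_pos (mul_pos (mul_pos (pow_pos k0 2) k1) k2) k3).ne'
      · linarith
    have hP : 0 < (k - 1) * (k - 2) * (k - 3) := mul_pos (mul_pos k1 k2) k3
    have key2 := mul_nonneg hP.le key
    have hQ : 210 * ((k - 1) * (k - 2) * (k - 3)) * (2 * (43/25)^2 - 8 * (43/25)) +
        70 * (16 + 2 * (43/25)) * ((k - 2) * (k - 3) * (k + 1)) -
        168 * ((k - 3) * (k + 1) * (k + 2)) + 6 * ((k + 1) * (k + 2) * (k + 3)) < 0 := by
      obtain ⟨t, ht⟩ : ∃ t, t = k - 4 := ⟨_, rfl⟩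
      have hk' : k = t + 4 := by linarith
      have t0 : 0 < t := by linarith
      have t1 : t ≤ 1 := by linarith
      rw [hk']
      nlinarith [mul_nonneg t0.le (sub_nonneg.2 t1), mul_nonneg (mul_nonneg t0.le t0.le) (sub_nonneg.2 t1), sq_nonneg t]
    have v0' : I 0 = 2 := by linarith [v0]
    have e2 : ((k - 1) * (k - 2) * (k - 3)) * I 2 = (k - 2) * (k - 3) * (k + 1) / 3 := by
      linear_combination ((k - 2) * (k - 3) / 3) * m2
    have e3 : ((k - 1) * (k - 2) * (k - 3)) * I 3 = (k - 3) * (k + 1) * (k + 2) / 10 := by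
      linear_combination ((k - 3) / 10) * m3
    have e4 : ((k - 1) * (k - 2) * (k - 3)) * I 4 = (k + 1) * (k + 2) * (k + 3) / 35 := by
      linear_combination (1 / 35) * m4
    rw [v0', m1] at key2
    nlinarith [key2, e2, e3, e4, hQ]
  · have key := pf_key k 3 f g
      (fun j => if j = 0 then 1/4 else if j = 1 then -1 else 1)
      (fun i hi => hint i (by omega)) (by
        intro x y hx hy
        rcases hx.eq_or_lt with h0 | h0
        · subst h0
          have z : ∀ i : ℕ, i < 5 → (0:ℝ) ^ (2 * k - 2 * i) = 0 := by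
            intro i hi
            apply Real.zero_rpow
            have : (i : ℝ) ≤ 4 := by exact_mod_cast (by omega : i ≤ 4)
            intro h; linarith
          apply le_of_eq
          symm
          apply Finset.sum_eq_zero
          intro i hi
          rw [z i (by have := Finset.mem_range.1 hi; omega)]
          ring
        · have e : ∀ i : ℕ, i < 3 → x ^ (2 * k - 2 * i) = x ^ (2 * k - 4) * x ^ (4 - 2 * i) := by
            intro i hi
            rw [← Real.rpow_natCast x (4 - 2 * i), ← Real.rpow_add h0]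
            congr 1
            rw [Nat.cast_sub (by omega)]
            push_cast
            ring
          have : ∑ i ∈ Finset.range 3, (fun j : ℕ => if j = 0 then ((1/4:ℝ)) else
              if j = 1 then -1 else 1) i *
              (x ^ (2 * k - 2 * i) * y ^ (2 * i)) =
              x ^ (2 * k - 4) * (x ^ 2 / 2 - y ^ 2) ^ 2 := by
            rw [Finset.sum_congr rfl (fun i hi => by rw [e i (Finset.mem_range.1 hi)])]
            simp [Finset.sum_range_succ]
            ring
          rw [this]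
          positivity)
    generalize hI : (fun j : ℕ => ∫ t in Set.Ioo (0:ℝ) 1,
      ‖f t‖ ^ (2 * k - 2 * j) * ‖g t‖ ^ (2 * j)) = I at *
    have hI' : ∀ j : ℕ, ∫ t in Set.Ioo (0:ℝ) 1, ‖f t‖ ^ (2 * k - 2 * j) * ‖g t‖ ^ (2 * j) = I j :=
      fun j => congrFun hI j
    simp only [hI'] at v0 v1 v2 v3 v4 key
    simp [Finset.sum_range_succ, bc, cr] at v0 v1 v2 v3 v4 key
    have m1 : I 1 = 1 := by
      have : k ^ 2 * (I 1 - 1) = 0 := by nlinarith [v1]
      rcases mul_eq_zero.1 this with h | h
      · exact absurd h (pow_pos k0 2).ne'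
      · linarith
    have m2 : 3 * (k - 1) * I 2 = k + 1 := by
      have : k ^ 2 * (k - 1) * (3 * (k - 1) * I 2 - (k + 1)) = 0 := by nlinarith [v2]
      rcases mul_eq_zero.1 this with h | h
      · exact absurd h (mul_pos (pow_pos k0 2) k1).ne'
      · linarith
    nlinarith [mul_nonneg k1.le key]

end Pool.Agent.R260.SC
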