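import Pool.Agent.R260.SC.FinalE
import Pool.Agent.R260.SC.PA1
import Pool.Agent.R260.SC.PA2
import Pool.Agent.R260.SC.PA3
import Pool.Agent.R260.SC.PB
import Pool.Agent.R260.SC.PC
import Pool.Agent.R260.SC.PD
import Pool.Agent.R260.SC.PE
import Pool.Agent.R260.SC.PF

set_option autoImplicit false

open MeasureTheory Matrix

namespace Pool.Agent.R260.SC

theorem real_no (k : ℝ) (hk : 4 < k) :
    ¬ Embeds (2 * k) (1 : Matrix (Fin 2) (Fin 2) ℂ) E₁₂ := by
  rintro ⟨f, g, hf, hg, h⟩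
  have h2 : ∀ β : ℂ, ∫ t in Set.Ioo (0:ℝ) 1, ‖f t + β * g t‖ ^ (2 * k) =
      2 * Real.cosh (2 * k * Real.arsinh (‖β‖ / 2)) := by
    intro β
    rw [← pb (2 * k) β, h 1 β]
    simp only [one_mul]
  exact pf k f g hk (pe (pa3 (pa2 pa1)) pc pd k f g hk hf hg h2)

theorem all_no (p : ℝ) (hp : 8 ≤ p) :
    ¬ Embeds p (1 : Matrix (Fin 2) (Fin 2) ℂ) E₁₂ := by
  rcases hp.eq_or_lt with h | h
  · have := even_no 4 le_rfl
    rw [← h]
    convert this using 1
    norm_num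
  · have := real_no (p / 2) (by linarith)
    rwa [mul_div_cancel₀ p (by norm_num : (2:ℝ) ≠ 0)] at this

end Pool.Agent.R260.SC
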