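import Pool.Agent.R260.SC.Defs

/-! SC-GR (helper261). -/

set_option autoImplicit false

open MeasureTheory Matrix

namespace Pool.Agent.R260.SC

namespace GRaux

variable {n : ℕ}

/-- real inner product of matrices -/
theorem ip (X Y : Matrix (Fin n) (Fin n) ℂ) :
    ∑ r, ∑ s, ((X r s).re * (Y r s).re + (X r s).im * (Y r s).im) = ((X * Yᴴ).trace).re := by
  simp only [Matrix.trace, Matrix.diag, Matrix.mul_apply, Matrix.conjTranspose_apply, Complex.re_sum]
  refine Finset.sum_congr rfl fun r _ => Finset.sum_congr rfl fun s _ => ?_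
  simp [Complex.mul_re]

theorem tr_sq (H : Matrix (Fin n) (Fin n) ℂ) (hH : Hᴴ = H) :
    (H ^ 2).trace = ((∑ r, ∑ s, ((H r s).re ^ 2 + (H r s).im ^ 2) : ℝ) : ℂ) := by
  have h1 : H ^ 2 = H * Hᴴ := by rw [hH, pow_two]
  have h2 : ∀ r s, H r s * star (H r s) = (((H r s).re ^ 2 + (H r s).im ^ 2 : ℝ) : ℂ) := by
    intro r s
    have h3 : H r s * star (H r s) = ((Complex.normSq (H r s) : ℝ) : ℂ) := Complex.mul_conj _
    rw [h3, Complex.normSq_apply]
    congr 1
    ring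
  rw [h1]
  simp only [Matrix.trace, Matrix.diag, Matrix.mul_apply, Matrix.conjTranspose_apply, h2]
  push_cast
  rfl

/-- the coefficients of a Hermitian combination -/
noncomputable def fam (X Y C C' : Matrix (Fin n) (Fin n) ℂ) : Fin 4 → Matrix (Fin n) (Fin n) ℂ :=
  ![(1 / 2 : ℂ) • (X + Y), (1 / 2 : ℂ) • (X - Y), (1 / 2 : ℂ) • (C + C'),
    (Complex.I / 2 : ℂ) • (C - C')]

theorem comb (X Y C C' : Matrix (Fin n) (Fin n) ℂ) (x y z w : ℂ) :
    x • X + y • Y + z • C + w • C' =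
      (x + y) • fam X Y C C' 0 + (x - y) • fam X Y C C' 1 + (z + w) • fam X Y C C' 2 +
        (-Complex.I * (z - w)) • fam X Y C C' 3 := by
  have e0 : fam X Y C C' 0 = (1 / 2 : ℂ) • (X + Y) := rfl
  have e1 : fam X Y C C' 1 = (1 / 2 : ℂ) • (X - Y) := rfl
  have e2 : fam X Y C C' 2 = (1 / 2 : ℂ) • (C + C') := rfl
  have e3 : fam X Y C C' 3 = (Complex.I / 2 : ℂ) • (C - C') := rfl
  have h : (-Complex.I * (z - w)) * (Complex.I / 2) = (z - w) / 2 := by
    linear_combination (-(z - w) / 2) * Complex.I_sq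
  rw [e0, e1, e2, e3, smul_smul (-Complex.I * (z - w)), h]
  module

/-- coordinates -/
theorem nvc (α β : ℂ) : ((nv α β 0 : ℝ) : ℂ) = star α * α + star β * β ∧
    ((nv α β 1 : ℝ) : ℂ) = star α * α - star β * β ∧
    ((nv α β 2 : ℝ) : ℂ) = star α * β + star β * α ∧
    ((nv α β 3 : ℝ) : ℂ) = -Complex.I * (star α * β - star β * α) := by
  have hn : ∀ z : ℂ, ((‖z‖ ^ 2 : ℝ) : ℂ) = star z * z := by
    intro z
    rw [← Complex.normSq_eq_norm_sq, Complex.normSq_eq_conj_mul_self]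
    rfl
  refine ⟨?_, ?_, ?_, ?_⟩
  · show (((‖α‖ ^ 2 + ‖β‖ ^ 2 : ℝ)) : ℂ) = _
    rw [Complex.ofReal_add, hn, hn]
  · show (((‖α‖ ^ 2 - ‖β‖ ^ 2 : ℝ)) : ℂ) = _
    rw [Complex.ofReal_sub, hn, hn]
  · show ((2 * (star α * β).re : ℝ) : ℂ) = _
    apply Complex.ext
    · simp [Complex.mul_re]
      ring
    · simp [Complex.mul_im]
      ring
  · show ((2 * (star α * β).im : ℝ) : ℂ) = _
    apply Complex.ext
    · simp [Complex.mul_re, Complex.mul_im]
      ring
    · simp [Complex.mul_re, Complex.mul_im]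
      ring

theorem expand (A B : Matrix (Fin n) (Fin n) ℂ) (α β : ℂ) :
    (α • A + β • B)ᴴ * (α • A + β • B) =
      ∑ j, ((nv α β j : ℝ) : ℂ) • fam (Aᴴ * A) (Bᴴ * B) (Aᴴ * B) (Bᴴ * A) j := by
  obtain ⟨h0, h1, h2, h3⟩ := nvc α β
  rw [Fin.sum_univ_four, h0, h1, h2, h3, ← comb]
  rw [Matrix.conjTranspose_add, Matrix.conjTranspose_smul, Matrix.conjTranspose_smul]
  simp only [Matrix.add_mul, Matrix.mul_add, Matrix.smul_mul, Matrix.mul_smul]
  module

theorem expand' (A B : Matrix (Fin n) (Fin n) ℂ) (α β : ℂ) :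
    (α • A + β • B) * (α • A + β • B)ᴴ =
      ∑ j, ((nv α β j : ℝ) : ℂ) • fam (A * Aᴴ) (B * Bᴴ) (B * Aᴴ) (A * Bᴴ) j := by
  obtain ⟨h0, h1, h2, h3⟩ := nvc α β
  rw [Fin.sum_univ_four, h0, h1, h2, h3, ← comb]
  rw [Matrix.conjTranspose_add, Matrix.conjTranspose_smul, Matrix.conjTranspose_smul]
  simp only [Matrix.add_mul, Matrix.mul_add, Matrix.smul_mul, Matrix.mul_smul]
  module

/-- Lorentz sum of one entry -/
theorem lor_entry (x y c c' : ℂ) (q : Fin 4 → ℂ) (h0 : q 0 = (1 / 2 : ℂ) * (x + y))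
    (h1 : q 1 = (1 / 2 : ℂ) * (x - y)) (h2 : q 2 = (1 / 2 : ℂ) * (c + c'))
    (h3 : q 3 = (Complex.I / 2) * (c - c')) (t : ℝ) :
    lor (fun j => t * (q j).re) + lor (fun j => t * (q j).im) =
      t ^ 2 * ((x.re * y.re + x.im * y.im) - (c.re * c.re + c.im * c.im) / 2 -
        (c'.re * c'.re + c'.im * c'.im) / 2) := by
  have r0 : (q 0).re = (x.re + y.re) / 2 ∧ (q 0).im = (x.im + y.im) / 2 := by
    rw [h0]; constructor
    · simp [Complex.mul_re]; ring
    · simp [Complex.mul_im]; ring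
  have r1 : (q 1).re = (x.re - y.re) / 2 ∧ (q 1).im = (x.im - y.im) / 2 := by
    rw [h1]; constructor
    · simp [Complex.mul_re]; ring
    · simp [Complex.mul_im]; ring
  have r2 : (q 2).re = (c.re + c'.re) / 2 ∧ (q 2).im = (c.im + c'.im) / 2 := by
    rw [h2]; constructor
    · simp [Complex.mul_re]; ring
    · simp [Complex.mul_im]; ring
  have r3 : (q 3).re = -((c.im - c'.im) / 2) ∧ (q 3).im = (c.re - c'.re) / 2 := by
    rw [h3]; constructor
    · simp [Complex.mul_re]; ring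
    · simp [Complex.mul_im]; ring
  unfold lor
  simp only [r0.1, r0.2, r1.1, r1.2, r2.1, r2.2, r3.1, r3.2]
  ring

theorem lor_fam (X Y C C' : Matrix (Fin n) (Fin n) ℂ) (t : ℝ) :
    ∑ r, ∑ s, (lor (fun j => t * (fam X Y C C' j r s).re) +
      lor (fun j => t * (fam X Y C C' j r s).im)) =
      t ^ 2 * (((X * Yᴴ).trace).re - ((C * Cᴴ).trace).re / 2 - ((C' * C'ᴴ).trace).re / 2) := by
  have h : ∀ r s, lor (fun j => t * (fam X Y C C' j r s).re) +
      lor (fun j => t * (fam X Y C C' j r s).im) =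
      t ^ 2 * (((X r s).re * (Y r s).re + (X r s).im * (Y r s).im) -
        ((C r s).re * (C r s).re + (C r s).im * (C r s).im) / 2 -
        ((C' r s).re * (C' r s).re + (C' r s).im * (C' r s).im) / 2) := by
    intro r s
    exact lor_entry (X r s) (Y r s) (C r s) (C' r s) (fun j => fam X Y C C' j r s) rfl rfl rfl rfl t
  simp only [h]
  simp only [← Finset.mul_sum, Finset.sum_sub_distrib, ← Finset.sum_div]
  rw [ip, ip, ip]

theorem re_sum_fam (Q : Fin 4 → Matrix (Fin n) (Fin n) ℂ) (a : Fin 4 → ℝ) (r s : Fin n) :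
    ((∑ j, ((a j : ℝ) : ℂ) • Q j) r s).re = ∑ j, a j * (Q j r s).re ∧
    ((∑ j, ((a j : ℝ) : ℂ) • Q j) r s).im = ∑ j, a j * (Q j r s).im := by
  constructor
  · rw [Matrix.sum_apply, Complex.re_sum]
    refine Finset.sum_congr rfl fun j _ => ?_
    simp
  · rw [Matrix.sum_apply, Complex.im_sum]
    refine Finset.sum_congr rfl fun j _ => ?_
    simp

end GRaux

open GRaux

theorem gr : S_GR := by
  intro n A B
  let Q : Fin 4 → Matrix (Fin n) (Fin n) ℂ := fam (Aᴴ * A) (Bᴴ * B) (Aᴴ * B) (Bᴴ * A)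
  let P : Fin 4 → Matrix (Fin n) (Fin n) ℂ := fam (A * Aᴴ) (B * Bᴴ) (B * Aᴴ) (A * Bᴴ)
  let t : ℝ := Real.sqrt (1 / 2)
  have ht : t ^ 2 = 1 / 2 := Real.sq_sqrt (by norm_num)
  let v0 : (Fin n × Fin n) × Fin 4 → Fin 4 → ℝ := fun x =>
    (![fun j => t * (Q j x.1.1 x.1.2).re, fun j => t * (Q j x.1.1 x.1.2).im,
      fun j => t * (P j x.1.1 x.1.2).re, fun j => t * (P j x.1.1 x.1.2).im] :
        Fin 4 → Fin 4 → ℝ) x.2
  have hsum : ∀ F : (Fin 4 → ℝ) → ℝ, ∑ x, F (v0 x) = ∑ r, ∑ s,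
      ((F (fun j => t * (Q j r s).re) + F (fun j => t * (Q j r s).im)) +
        (F (fun j => t * (P j r s).re) + F (fun j => t * (P j r s).im))) := by
    intro F
    rw [Fintype.sum_prod_type, Fintype.sum_prod_type]
    refine Finset.sum_congr rfl fun r _ => Finset.sum_congr rfl fun s _ => ?_
    rw [Fin.sum_univ_four]
    show F (fun j => t * (Q j r s).re) + F (fun j => t * (Q j r s).im) +
        F (fun j => t * (P j r s).re) + F (fun j => t * (P j r s).im) = _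
    ring
  let e := Fintype.equivFin ((Fin n × Fin n) × Fin 4)
  refine ⟨Fintype.card ((Fin n × Fin n) × Fin 4), fun i => v0 (e.symm i), ?_, ?_⟩
  · rw [Equiv.sum_comp e.symm (fun x => lor (v0 x)), hsum lor]
    simp only [Finset.sum_add_distrib (M := ℝ)]
    have h1 := lor_fam (Aᴴ * A) (Bᴴ * B) (Aᴴ * B) (Bᴴ * A) t
    have h2 := lor_fam (A * Aᴴ) (B * Bᴴ) (B * Aᴴ) (A * Bᴴ) t
    simp only [Finset.sum_add_distrib] at h1 h2
    have e1 : (Aᴴ * A * (Bᴴ * B)ᴴ).trace = (Aᴴ * A * (Bᴴ * B)).trace := by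
      simp only [Matrix.conjTranspose_mul, Matrix.conjTranspose_conjTranspose]
    have e2 : (A * Aᴴ * (B * Bᴴ)ᴴ).trace = (A * Aᴴ * (B * Bᴴ)).trace := by
      simp only [Matrix.conjTranspose_mul, Matrix.conjTranspose_conjTranspose]
    have e3 : (Aᴴ * B * (Aᴴ * B)ᴴ).trace = (A * Aᴴ * (B * Bᴴ)).trace := by
      simp only [Matrix.conjTranspose_mul, Matrix.conjTranspose_conjTranspose]
      rw [show Aᴴ * B * (Bᴴ * A) = (Aᴴ * B * Bᴴ) * A by simp only [Matrix.mul_assoc],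
        Matrix.trace_mul_comm]
      simp only [Matrix.mul_assoc]
    have e4 : (Bᴴ * A * (Bᴴ * A)ᴴ).trace = (A * Aᴴ * (B * Bᴴ)).trace := by
      simp only [Matrix.conjTranspose_mul, Matrix.conjTranspose_conjTranspose]
      rw [show Bᴴ * A * (Aᴴ * B) = Bᴴ * (A * Aᴴ * B) by simp only [Matrix.mul_assoc],
        Matrix.trace_mul_comm]
      simp only [Matrix.mul_assoc]
    have e5 : (B * Aᴴ * (B * Aᴴ)ᴴ).trace = (Aᴴ * A * (Bᴴ * B)).trace := by
      simp only [Matrix.conjTranspose_mul, Matrix.conjTranspose_conjTranspose]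
      rw [show B * Aᴴ * (A * Bᴴ) = B * (Aᴴ * A * Bᴴ) by simp only [Matrix.mul_assoc],
        Matrix.trace_mul_comm]
      simp only [Matrix.mul_assoc]
    have e6 : (A * Bᴴ * (A * Bᴴ)ᴴ).trace = (Aᴴ * A * (Bᴴ * B)).trace := by
      simp only [Matrix.conjTranspose_mul, Matrix.conjTranspose_conjTranspose]
      rw [show A * Bᴴ * (B * Aᴴ) = (A * (Bᴴ * B)) * Aᴴ by simp only [Matrix.mul_assoc],
        Matrix.trace_mul_comm]
      simp only [Matrix.mul_assoc]
    rw [e1, e3, e4] at h1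
    rw [e2, e5, e6] at h2
    have h3 : ∀ (a b c d p q : ℝ), a + b = t ^ 2 * (p - q / 2 - q / 2) →
        c + d = t ^ 2 * (q - p / 2 - p / 2) → a + b + (c + d) = 0 := by
      intro a b c d p q ha hc
      rw [ha, hc]
      ring
    exact h3 _ _ _ _ _ _ h1 h2
  · intro α β
    set M := α • A + β • B with hM
    have hS : ∑ i, (∑ j, nv α β j * (fun i => v0 (e.symm i)) i j) ^ 2 =
        ∑ x, (∑ j, nv α β j * v0 x j) ^ 2 :=
      Equiv.sum_comp e.symm (fun x => (∑ j, nv α β j * v0 x j) ^ 2)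
    have h1 : ((Mᴴ * M) ^ 2).trace = ((∑ r, ∑ s, ((∑ j, nv α β j * (Q j r s).re) ^ 2 +
        (∑ j, nv α β j * (Q j r s).im) ^ 2) : ℝ) : ℂ) := by
      rw [tr_sq _ (by rw [Matrix.conjTranspose_mul, Matrix.conjTranspose_conjTranspose]),
        expand A B α β]
      congr 1
      refine Finset.sum_congr rfl fun r _ => Finset.sum_congr rfl fun s _ => ?_
      rw [(re_sum_fam _ _ r s).1, (re_sum_fam _ _ r s).2]
    have h2 : ((M * Mᴴ) ^ 2).trace = ((∑ r, ∑ s, ((∑ j, nv α β j * (P j r s).re) ^ 2 +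
        (∑ j, nv α β j * (P j r s).im) ^ 2) : ℝ) : ℂ) := by
      rw [tr_sq _ (by rw [Matrix.conjTranspose_mul, Matrix.conjTranspose_conjTranspose]),
        expand' A B α β]
      congr 1
      refine Finset.sum_congr rfl fun r _ => Finset.sum_congr rfl fun s _ => ?_
      rw [(re_sum_fam _ _ r s).1, (re_sum_fam _ _ r s).2]
    have h3 : ((Mᴴ * M) ^ 2).trace = ((M * Mᴴ) ^ 2).trace := by
      rw [pow_two, pow_two]
      rw [show Mᴴ * M * (Mᴴ * M) = Mᴴ * (M * Mᴴ * M) by simp only [Matrix.mul_assoc],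
        Matrix.trace_mul_comm]
      simp only [Matrix.mul_assoc]
    have hF : ∀ q : Fin 4 → ℝ, (∑ j, nv α β j * (t * q j)) ^ 2 =
        t ^ 2 * (∑ j, nv α β j * q j) ^ 2 := by
      intro q
      have : ∑ j, nv α β j * (t * q j) = t * ∑ j, nv α β j * q j := by
        rw [Finset.mul_sum]
        exact Finset.sum_congr rfl fun j _ => by ring
      rw [this, mul_pow]
    have h4 : ∑ x, (∑ j, nv α β j * v0 x j) ^ 2 =
        (1 / 2) * (∑ r, ∑ s, ((∑ j, nv α β j * (Q j r s).re) ^ 2 +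
          (∑ j, nv α β j * (Q j r s).im) ^ 2)) +
        (1 / 2) * (∑ r, ∑ s, ((∑ j, nv α β j * (P j r s).re) ^ 2 +
          (∑ j, nv α β j * (P j r s).im) ^ 2)) := by
      rw [hsum (fun u => (∑ j, nv α β j * u j) ^ 2)]
      simp only [hF, ht]
      rw [Finset.mul_sum, Finset.mul_sum, ← Finset.sum_add_distrib]
      refine Finset.sum_congr rfl fun r _ => ?_
      rw [Finset.mul_sum, Finset.mul_sum, ← Finset.sum_add_distrib]
      refine Finset.sum_congr rfl fun s _ => ?_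
      ring
    rw [hS, h4]
    have h5 : ((Mᴴ * M) ^ 2).trace = (1 / 2) * ((Mᴴ * M) ^ 2).trace +
        (1 / 2) * ((M * Mᴴ) ^ 2).trace := by
      rw [← h3]; ring
    rw [h5, h1, h2]
    push_cast
    rfl

end Pool.Agent.R260.SC
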