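import Pool.Agent.R260.SC.Defs

set_option autoImplicit false

open MeasureTheory Matrix

namespace Pool.Agent.R260.SC

theorem tr : S_TR := by
  intro n k M
  have hA := isHermitian_conjTranspose_mul_self M
  have h1 : ((sch (2 * k) M : ℝ) : ℂ) = ∑ i, ((hA.eigenvalues i : ℝ) : ℂ) ^ k := by
    unfold sch
    rw [Complex.ofReal_sum]
    refine Finset.sum_congr rfl fun i _ => ?_
    have e1 : (2 * (k : ℝ)) / 2 = k := by ring
    rw [e1, Real.rpow_natCast, Complex.ofReal_pow]
  have h2 : (Mᴴ * M) ^ k = (Unitary.conjStarAlgAut ℂ (Matrix (Fin n) (Fin n) ℂ))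
      hA.eigenvectorUnitary ((Matrix.diagonal (RCLike.ofReal ∘ hA.eigenvalues)) ^ k) := by
    rw [map_pow, ← hA.spectral_theorem]
  rw [h1, h2, Unitary.conjStarAlgAut_apply, Matrix.trace_mul_comm, ← mul_assoc]
  have h3 : star (hA.eigenvectorUnitary : Matrix (Fin n) (Fin n) ℂ) *
      (hA.eigenvectorUnitary : Matrix (Fin n) (Fin n) ℂ) = 1 :=
    Unitary.coe_star_mul_self _
  have h4 : (((star hA.eigenvectorUnitary : unitary (Matrix (Fin n) (Fin n) ℂ)) :
      Matrix (Fin n) (Fin n) ℂ)) * (hA.eigenvectorUnitary : Matrix (Fin n) (Fin n) ℂ) = 1 := by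
    first
      | exact h3
      | simpa using h3
  first
    | rw [h3, one_mul, Matrix.diagonal_pow, Matrix.trace_diagonal]
    | rw [h4, one_mul, Matrix.diagonal_pow, Matrix.trace_diagonal]
  refine Finset.sum_congr rfl fun i _ => ?_
  rfl

end Pool.Agent.R260.SC
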